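import Pool.Agent.V7H55.LT.Engine

/-! The inequality of Ellenberg and Venkatesh for families of ideals of arbitrary norms, with an
abstract separation hypothesis in which the sizes of the conjugates are balanced. -/

set_option autoImplicit false

namespace Pool.Agent.V7H55.GG

open NumberField Finset Pool.Agent.TH847.LS Pool.Agent.TH847.LG NumberField.InfinitePlace
  IntermediateField
open scoped Classical nonZeroDivisors

variable {K : Type} [Field K] [NumberField K]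

theorem exists_z {n : ℕ} (hn : Module.finrank ℚ K = n) {l : ℕ} (hl : 1 ≤ l)
    (A A' P Q J : Ideal (𝓞 K)) {a : ℕ} (ha : 0 < a)
    (hPJ : P * J = Ideal.span {((a : ℕ) : 𝓞 K)}) {α β γ γ' : 𝓞 K} (hα : α ≠ 0) (hβ : β ≠ 0)
    (hγ : γ ≠ 0) (hγ' : γ' ≠ 0) (hA : A ^ l = Ideal.span {γ}) (hA' : A' ^ l = Ideal.span {γ'})
    (hg : ∀ w : InfinitePlace K, |Lw w (γ : K)| ≤ 2 * l)
    (hg' : ∀ w : InfinitePlace K, |Lw w (γ' : K)| ≤ 2 * l)
    (hab : Ideal.span {α} * (A' * Q) = Ideal.span {β} * (A * P))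
    (hw : ∀ w : InfinitePlace K, |Lw w (α : K) - Lw w (β : K)| < 1)
    (hQ0 : Ideal.absNorm Q ≠ 0) (hJ0 : Ideal.absNorm J ≠ 0) :
    ∃ z : 𝓞 K, z ≠ 0 ∧ Ideal.span {z} = Q ^ l * J ^ l ∧
      ∀ w : InfinitePlace K, w (z : K) ^ n ≤ ((150 : ℝ) ^ l) ^ n *
        (((Ideal.absNorm Q * Ideal.absNorm J) ^ l : ℕ) : ℝ) := by
  have hn0 : 0 < n := by rw [← hn]; exact (Module.finrank_pos (R := ℚ) (M := K))
  have hnr : (0 : ℝ) < n := by exact_mod_cast hn0
  have hlr : (1 : ℝ) ≤ l := by exact_mod_cast hl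
  have haK : (α : K) ≠ 0 := by exact_mod_cast hα
  have hbK : (β : K) ≠ 0 := by exact_mod_cast hβ
  have hγK : (γ : K) ≠ 0 := by exact_mod_cast hγ
  have hγK' : (γ' : K) ≠ 0 := by exact_mod_cast hγ'
  have hpK : ((a : ℕ) : K) ≠ 0 := by exact_mod_cast ha.ne'
  -- the l-th power
  have e1 : Ideal.span {α ^ l * γ'} * (Q ^ l * J ^ l) =
      Ideal.span {β ^ l * γ * (a : 𝓞 K) ^ l} := by
    have e2 := congrArg (fun I => I ^ l * J ^ l) hab
    simp only [mul_pow, Ideal.span_singleton_pow, hA, hA'] at e2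
    rw [← Ideal.span_singleton_mul_span_singleton, ← Ideal.span_singleton_mul_span_singleton,
      ← Ideal.span_singleton_mul_span_singleton, ← Ideal.span_singleton_pow (a : 𝓞 K),
      ← hPJ, mul_pow]
    calc _ = Ideal.span {α ^ l} * (Ideal.span {γ'} * Q ^ l) * J ^ l := by ring
      _ = Ideal.span {β ^ l} * (Ideal.span {γ} * P ^ l) * J ^ l := e2
      _ = _ := by ring
  have hden : α ^ l * γ' ≠ 0 := mul_ne_zero (pow_ne_zero _ hα) hγ'
  have hdvd : α ^ l * γ' ∣ β ^ l * γ * (a : 𝓞 K) ^ l := by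
    rw [← Ideal.span_singleton_le_span_singleton, ← e1]
    exact Ideal.mul_le_left
  obtain ⟨z, hz⟩ := hdvd
  have hzspan : Ideal.span {z} = Q ^ l * J ^ l := by
    rw [hz, ← Ideal.span_singleton_mul_span_singleton (α ^ l * γ')] at e1
    have hne0 : Ideal.span {α ^ l * γ'} ≠ (0 : Ideal (𝓞 K)) := by
      rw [Ne, Ideal.zero_eq_bot, Ideal.span_singleton_eq_bot]
      exact hden
    exact (mul_left_cancel₀ hne0 e1).symm
  have hz0 : z ≠ 0 := by
    rintro rfl
    rw [mul_zero] at hz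
    have : (β ^ l * γ * (a : 𝓞 K) ^ l) ≠ 0 := by
      refine mul_ne_zero (mul_ne_zero (pow_ne_zero _ hβ) hγ) (pow_ne_zero _ ?_)
      exact_mod_cast ha.ne'
    exact this hz
  have hzK : (z : K) ≠ 0 := by exact_mod_cast hz0
  -- the norm of z
  have hnz : (Algebra.norm ℤ z).natAbs = (Ideal.absNorm Q * Ideal.absNorm J) ^ l := by
    rw [← Ideal.absNorm_span_singleton, hzspan, map_mul, map_pow, map_pow, mul_pow]
  have hnz' : |((Algebra.norm ℚ (z : K) : ℚ) : ℝ)| =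
      (((Ideal.absNorm Q * Ideal.absNorm J) ^ l : ℕ) : ℝ) := by
    rw [← Algebra.coe_norm_int, ← hnz, Nat.cast_natAbs]
    push_cast
    rfl
  -- the size of z at the places
  have hLz : ∀ w : InfinitePlace K, Lw w (z : K) ≤ 5 * l := by
    intro w
    have h1 : Lw w ((α ^ l * γ' * z : 𝓞 K) : K) =
        Lw w ((β ^ l * γ * (a : 𝓞 K) ^ l : 𝓞 K) : K) := by rw [hz]
    push_cast at h1
    rw [Lw_mul w (mul_ne_zero (pow_ne_zero _ haK) hγK') hzK,
      Lw_mul w (pow_ne_zero _ haK) hγK', Lw_mul w (mul_ne_zero (pow_ne_zero _ hbK) hγK)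
        (pow_ne_zero _ hpK), Lw_mul w (pow_ne_zero _ hbK) hγK, Lw_pow, Lw_pow, Lw_pow,
      Lw_natCast, mul_zero, add_zero] at h1
    have h2 := abs_lt.mp (hw w)
    have h3 := abs_le.mp (hg w)
    have h4 := abs_le.mp (hg' w)
    have h5 : (l : ℝ) * (Lw w (β : K) - Lw w (α : K)) ≤ l * 1 :=
      mul_le_mul_of_nonneg_left (by linarith) (by linarith)
    nlinarith
  have hpos : (0 : ℝ) < (((Ideal.absNorm Q * Ideal.absNorm J) ^ l : ℕ) : ℝ) := by
    exact_mod_cast pow_pos (Nat.mul_pos (Nat.pos_of_ne_zero hQ0) (Nat.pos_of_ne_zero hJ0)) l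
  refine ⟨z, hz0, hzspan, ?_⟩
  intro w
  have h1 := hLz w
  unfold Lw at h1
  rw [hnz', hn] at h1
  have h5 : (5 : ℝ) ≤ Real.log 150 := by
    rw [Real.le_log_iff_exp_le (by norm_num)]
    have h6 : Real.exp 1 < 2.7182818286 := Real.exp_one_lt_d9
    have h7 : Real.exp 5 = Real.exp 1 ^ 5 := by
      rw [← Real.exp_nat_mul]; norm_num
    rw [h7]
    have h8 : Real.exp 1 ^ 5 ≤ (2.7182818286 : ℝ) ^ 5 := by
      gcongr
    refine h8.trans ?_
    norm_num
  have hwp := w_pos w hzK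
  refine (Real.log_le_log_iff (pow_pos hwp n) (by positivity)).mp ?_
  rw [Real.log_pow, Real.log_mul (by positivity) hpos.ne', Real.log_pow, Real.log_pow]
  have h9 : (n : ℝ) * Real.log (w (z : K)) ≤ n * (5 * l) +
      Real.log (((Ideal.absNorm Q * Ideal.absNorm J) ^ l : ℕ) : ℝ) := by
    have h10 : Real.log (w (z : K)) ≤ 5 * l +
      Real.log (((Ideal.absNorm Q * Ideal.absNorm J) ^ l : ℕ) : ℝ) / n := by linarith
    calc (n : ℝ) * Real.log (w (z : K)) ≤ n * (5 * l +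
        Real.log (((Ideal.absNorm Q * Ideal.absNorm J) ^ l : ℕ) : ℝ) / n) := by gcongr
      _ = _ := by field_simp
  have h11 : (n : ℝ) * (5 * l) ≤ n * (l * Real.log 150) := by
    have : (5 : ℝ) * l ≤ l * Real.log 150 := by nlinarith
    gcongr
  linarith

/-- **The inequality for a family of ideals `P i` with cofactors `J i`.**  For each pair of indices
the separation hypothesis is needed only in one of the two orders. -/
theorem ev_norm {n : ℕ} (hn : Module.finrank ℚ K = n) {l : ℕ} (hl : 1 ≤ l) (N : ℕ)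
    (hN : 2 ^ n * √|(discr K : ℝ)| < N) (ι : Type) [Fintype ι] (a : ι → ℕ)
    (P J : ι → (Ideal (𝓞 K))⁰)
    (hG : ∀ i : ι, 0 < a i ∧
      (P i : Ideal (𝓞 K)) * (J i : Ideal (𝓞 K)) = Ideal.span {((a i : ℕ) : 𝓞 K)})
    (r : ι → ι → Prop) (hr : ∀ i j, r i j ∨ r j i)
    (hsep : ∀ i j : ι, i ≠ j → r i j → ∀ z : 𝓞 K, z ≠ 0 →
      Ideal.span {z} = (P j : Ideal (𝓞 K)) ^ l * (J i : Ideal (𝓞 K)) ^ l →
      (∀ w : InfinitePlace K, w (z : K) ^ n ≤ ((150 : ℝ) ^ l) ^ n *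
        (((Ideal.absNorm (P j : Ideal (𝓞 K)) * Ideal.absNorm (J i : Ideal (𝓞 K))) ^ l : ℕ) :
          ℝ)) → False) :
    (Fintype.card ι : ℝ) * (Nat.card {c : ClassGroup (𝓞 K) // c ^ l = 1} : ℝ) ≤
      ∑ J ∈ FI K N, (1 + Real.log ((N : ℝ) / Ideal.absNorm J)) ^ n := by
  have hA : ∀ c : {c : ClassGroup (𝓞 K) // c ^ l = 1}, ∃ (A : (Ideal (𝓞 K))⁰)
      (γ : 𝓞 K), ClassGroup.mk0 A = c.1 ∧
      (A : Ideal (𝓞 K)) ^ l = Ideal.span {γ} ∧ γ ≠ 0 ∧
      ∀ w : InfinitePlace K, |Lw w (γ : K)| ≤ 2 * l :=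
    fun c => exists_rep hl c.1 c.2
  choose A γ hA1 hA2 hA3 hA4 using hA
  have hnP : ∀ i, Ideal.absNorm (P i : Ideal (𝓞 K)) ≠ 0 := fun i =>
    Ideal.absNorm_ne_zero_of_nonZeroDivisors _
  have hnJ : ∀ i, Ideal.absNorm (J i : Ideal (𝓞 K)) ≠ 0 := fun i =>
    Ideal.absNorm_ne_zero_of_nonZeroDivisors _
  have key := pack hn N hN (ι × {c : ClassGroup (𝓞 K) // c ^ l = 1})
    (fun i => A i.2 * P i.1) (by
      rintro ⟨p, c⟩ ⟨q, c'⟩ α β hα hβ hab hw
      simp only [Submonoid.coe_mul] at hab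
      have hpq : p = q := by
        by_contra hne
        rcases hr p q with h | h
        · obtain ⟨z, hz0, hzs, hzw⟩ := exists_z hn hl (A c) (A c') (P p) (P q) (J p) (hG p).1
            (hG p).2 hα hβ (hA3 c) (hA3 c') (hA2 c) (hA2 c') (hA4 c) (hA4 c') hab hw (hnP q)
            (hnJ p)
          exact hsep p q hne h z hz0 hzs hzw
        · obtain ⟨z, hz0, hzs, hzw⟩ := exists_z hn hl (A c') (A c) (P q) (P p) (J q) (hG q).1
            (hG q).2 hβ hα (hA3 c') (hA3 c) (hA2 c') (hA2 c) (hA4 c') (hA4 c) hab.symm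
            (fun w => by rw [abs_sub_comm]; exact hw w) (hnP p) (hnJ q)
          exact hsep q p (Ne.symm hne) h z hz0 hzs hzw
      subst hpq
      have hc : c = c' := by
        have hP0 : (P p : Ideal (𝓞 K)) ≠ 0 := nonZeroDivisors.coe_ne_zero _
        have e1 : Ideal.span {α} * (A c' : Ideal (𝓞 K)) =
            Ideal.span {β} * (A c : Ideal (𝓞 K)) := by
          rw [← mul_assoc, ← mul_assoc] at hab
          exact mul_right_cancel₀ hP0 hab
        have e2 : ClassGroup.mk0 (A c') = ClassGroup.mk0 (A c) := by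
          rw [ClassGroup.mk0_eq_mk0_iff]
          exact ⟨α, β, hα, hβ, e1⟩
        rw [hA1, hA1] at e2
        exact Subtype.ext e2.symm
      rw [hc])
  rw [Fintype.card_prod] at key
  rw [Nat.card_eq_fintype_card]
  push_cast at key
  exact key

end Pool.Agent.V7H55.GG
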