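import Pool.Agent.V7H55.GG.Res
import Pool.Agent.V7H55.GG.EvG

/-! Small elements whose conjugates generate the normal closure. -/

set_option autoImplicit false

namespace Pool.Agent.V7H55.GG

open NumberField Finset IntermediateField
open scoped Classical

section
variable {L M : Type} [Field L] [NumberField L] [Field M] [NumberField M]

/-- if no nontrivial normal subgroup fixes all conjugates of `z`, then no nontrivial element does -/
theorem eq_one_of_gen (z : L)
    (hgen : ∀ N : Subgroup Gal(M/ℚ), N.Normal → N ≠ ⊥ →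
      ∃ ν ∈ N, ∃ τ : L →ₐ[ℚ] M, ν (τ z) ≠ τ z) (ν : Gal(M/ℚ))
    (hν : ∀ τ : L →ₐ[ℚ] M, ν (τ z) = τ z) : ν = 1 := by
  let N : Subgroup Gal(M/ℚ) :=
    { carrier := {ν | ∀ τ : L →ₐ[ℚ] M, ν (τ z) = τ z}
      mul_mem' := fun {a b} ha hb τ => by
        change a (b (τ z)) = τ z
        rw [hb τ, ha τ]
      one_mem' := fun τ => rfl
      inv_mem' := fun {a} ha τ => by
        have h1 := ha τ
        change a⁻¹ (τ z) = τ z
        conv_lhs => rw [← h1]
        exact a.symm_apply_apply _ }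
  have hN : N.Normal := by
    constructor
    intro a ha g τ
    change g (a (g⁻¹ (τ z))) = τ z
    have h1 : a (g⁻¹ (τ z)) = g⁻¹ (τ z) := ha (mv g⁻¹ τ)
    rw [h1]
    exact g.apply_symm_apply _
  by_contra hne
  have hNb : N ≠ ⊥ := by
    intro h
    have h1 : ν ∈ N := hν
    rw [h, Subgroup.mem_bot] at h1
    exact hne h1
  obtain ⟨ρ, hρ, τ, hτ⟩ := hgen N hN hNb
  exact hτ (hρ τ)

/-- a small generator of the Galois extension -/
theorem exists_small_gen {n m : ℕ} (hm : Module.finrank ℚ M = m)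
    [IsGalois ℚ M] (hX : Fintype.card (L →ₐ[ℚ] M) = n) (hn0 : 0 < n) (z : 𝓞 L)
    (hone : ∀ ν : Gal(M/ℚ), (∀ τ : L →ₐ[ℚ] M, ν (τ (z : L)) = τ (z : L)) → ν = 1)
    {B : ℝ} (hB : ∀ w : InfinitePlace L, w (z : L) ≤ B) :
    ∃ θ : 𝓞 M, ℚ⟮(θ : M)⟯ = ⊤ ∧
      ∀ w : InfinitePlace M, w (θ : M) ≤ n * ((m * n : ℕ) : ℝ) ^ n * B := by
  have hcard : Fintype.card Gal(M/ℚ) = m := by
    rw [← Nat.card_eq_fintype_card, IsGalois.card_aut_eq_finrank, hm]
  have hm0 : 0 < m := by rw [← hm]; exact Module.finrank_pos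
  let e : Fin n ≃ (L →ₐ[ℚ] M) := (Fintype.equivFinOfCardEq hX).symm
  let F : Gal(M/ℚ) → Polynomial M := fun g =>
    ∑ i : Fin n, Polynomial.C (g (e i (z : L)) - e i (z : L)) * Polynomial.X ^ (i : ℕ)
  have hcoef : ∀ (g : Gal(M/ℚ)) (i : Fin n), (F g).coeff i = g (e i (z : L)) - e i (z : L) := by
    intro g i
    simp only [F, Polynomial.finsetSum_coeff, Polynomial.coeff_C_mul, Polynomial.coeff_X_pow]
    rw [Finset.sum_eq_single i]
    · simp
    · intro j _ hj
      rw [if_neg (fun h => hj (Fin.ext h.symm)), mul_zero]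
    · intro h
      exact absurd (Finset.mem_univ i) h
  have hF0 : ∀ g : Gal(M/ℚ), g ≠ 1 → F g ≠ 0 := by
    intro g hg h0
    apply hg
    apply hone
    intro τ
    have h1 := hcoef g (e.symm τ)
    rw [h0, Polynomial.coeff_zero, Equiv.apply_symm_apply] at h1
    exact (sub_eq_zero.mp h1.symm)
  have hdeg : ∀ g : Gal(M/ℚ), (F g).natDegree ≤ n := by
    intro g
    refine Polynomial.natDegree_sum_le_of_forall_le _ _ fun i _ => ?_
    refine (Polynomial.natDegree_C_mul_X_pow_le _ _).trans i.2.le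
  let R : Polynomial M := ∏ g ∈ (Finset.univ : Finset Gal(M/ℚ)).erase 1, F g
  have hR0 : R ≠ 0 := Finset.prod_ne_zero_iff.mpr fun g hg => hF0 g (Finset.ne_of_mem_erase hg)
  have hRdeg : R.natDegree < m * n := by
    calc R.natDegree ≤ ∑ g ∈ (Finset.univ : Finset Gal(M/ℚ)).erase 1, (F g).natDegree :=
          Polynomial.natDegree_prod_le _ _
      _ ≤ ∑ g ∈ (Finset.univ : Finset Gal(M/ℚ)).erase 1, n := Finset.sum_le_sum fun g _ => hdeg g
      _ = (m - 1) * n := by
          rw [Finset.sum_const, Finset.card_erase_of_mem (Finset.mem_univ _), Finset.card_univ,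
            hcard, smul_eq_mul]
      _ < m * n := Nat.mul_lt_mul_of_pos_right (by omega) hn0
  -- a value that is not a root
  obtain ⟨t, htlt, ht⟩ : ∃ t : ℕ, t < m * n ∧ R.eval (t : M) ≠ 0 := by
    by_contra hcon
    push Not at hcon
    have hsub : (Finset.range (m * n)).image (fun t : ℕ => (t : M)) ⊆ R.roots.toFinset := by
      intro x hx
      obtain ⟨t, ht, rfl⟩ := Finset.mem_image.mp hx
      rw [Multiset.mem_toFinset, Polynomial.mem_roots hR0]
      exact hcon t (Finset.mem_range.mp ht)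
    have h1 := Finset.card_le_card hsub
    rw [Finset.card_image_of_injective _ Nat.cast_injective, Finset.card_range] at h1
    have h2 := Multiset.toFinset_card_le R.roots
    have h3 := Polynomial.card_roots' R
    omega
  let θ : 𝓞 M := ∑ i : Fin n, ((t ^ (i : ℕ) : ℕ) : 𝓞 M) *
    RingOfIntegers.mapRingHom (e i : L →+* M) z
  have hθ : (θ : M) = ∑ i : Fin n, (t : M) ^ (i : ℕ) * e i (z : L) := by
    have h1 : (θ : M) = algebraMap (𝓞 M) M θ := rfl
    rw [h1]
    simp only [θ, map_sum, map_mul, map_natCast]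
    refine Finset.sum_congr rfl fun i _ => ?_
    push_cast
    rfl
  refine ⟨θ, ?_, ?_⟩
  · have hfix : (ℚ⟮(θ : M)⟯).fixingSubgroup = ⊥ := by
      rw [Subgroup.eq_bot_iff_forall]
      intro g hg
      by_contra hne
      have h1 : g (θ : M) = θ := by
        rw [IntermediateField.mem_fixingSubgroup_iff] at hg
        exact hg _ (mem_adjoin_simple_self ℚ _)
      have h2 : (F g).eval (t : M) = g (θ : M) - θ := by
        rw [hθ, map_sum, ← Finset.sum_sub_distrib]
        simp only [F, Polynomial.eval_finsetSum, Polynomial.eval_mul, Polynomial.eval_C,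
          Polynomial.eval_pow, Polynomial.eval_X]
        refine Finset.sum_congr rfl fun i _ => ?_
        rw [map_mul, map_pow, map_natCast]
        ring
      have h3 : (F g).eval (t : M) ≠ 0 := by
        have h4 : R.eval (t : M) = ∏ g ∈ (Finset.univ : Finset Gal(M/ℚ)).erase 1,
            (F g).eval (t : M) := Polynomial.eval_prod _ _ _
        rw [h4] at ht
        exact Finset.prod_ne_zero_iff.mp ht g (Finset.mem_erase.mpr ⟨hne, Finset.mem_univ _⟩)
      rw [h2, h1, sub_self] at h3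
      exact h3 rfl
    have h1 := IsGalois.fixedField_fixingSubgroup ℚ⟮(θ : M)⟯
    rw [hfix, IntermediateField.fixedField_bot] at h1
    exact h1.symm
  · intro w
    rw [hθ]
    have hmn : (1 : ℝ) ≤ ((m * n : ℕ) : ℝ) := by
      exact_mod_cast Nat.mul_pos hm0 hn0
    calc w (∑ i : Fin n, (t : M) ^ (i : ℕ) * e i (z : L))
        ≤ ∑ i : Fin n, w ((t : M) ^ (i : ℕ) * e i (z : L)) := by
          have := AbsoluteValue.sum_le w.1 Finset.univ
            (fun i : Fin n => (t : M) ^ (i : ℕ) * e i (z : L))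
          exact this
      _ ≤ ∑ i : Fin n, ((m * n : ℕ) : ℝ) ^ n * B := by
          refine Finset.sum_le_sum fun i _ => ?_
          rw [map_mul, map_pow, Pool.Agent.V7H55.LT.place_natCast]
          have h1 : w (e i (z : L)) ≤ B := by
            have h2 := hB (w.comap (e i : L →+* M))
            rw [InfinitePlace.comap_apply] at h2
            exact h2
          have h2 : (t : ℝ) ^ (i : ℕ) ≤ ((m * n : ℕ) : ℝ) ^ n := by
            calc (t : ℝ) ^ (i : ℕ) ≤ ((m * n : ℕ) : ℝ) ^ (i : ℕ) := by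
                  have : (t : ℝ) ≤ ((m * n : ℕ) : ℝ) := by exact_mod_cast htlt.le
                  gcongr
              _ ≤ ((m * n : ℕ) : ℝ) ^ n := pow_le_pow_right₀ hmn i.2.le
          exact mul_le_mul h2 h1 (apply_nonneg w _) (by positivity)
      _ = n * ((m * n : ℕ) : ℝ) ^ n * B := by
          rw [Finset.sum_const, Finset.card_univ, Fintype.card_fin, nsmul_eq_mul]
          ring

/-- the discriminants in a tower -/
theorem disc_tower {n m : ℕ} (hn : Module.finrank ℚ L = n) (hm : Module.finrank ℚ M = m)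
    (τ : L →ₐ[ℚ] M) : (discr L).natAbs ^ m ≤ (discr M).natAbs ^ n := by
  let : Algebra L M := τ.toRingHom.toAlgebra
  have : IsScalarTower ℚ L M := IsScalarTower.of_algebraMap_eq fun x => (τ.commutes x).symm
  have h1 := natAbs_discr_eq_absNorm_differentIdeal_mul_natAbs_discr_pow L (𝓞 L) M (𝓞 M)
  have h2 : (discr L).natAbs ^ Module.finrank L M ≤ (discr M).natAbs := by
    refine Nat.le_of_dvd (Int.natAbs_pos.mpr (discr_ne_zero M)) ?_
    rw [h1]
    exact Dvd.intro_left _ rfl
  have h3 : n * Module.finrank L M = m := by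
    rw [← hn, ← hm]
    exact Module.finrank_mul_finrank ℚ L M
  calc (discr L).natAbs ^ m = ((discr L).natAbs ^ Module.finrank L M) ^ n := by
        rw [← pow_mul, mul_comm _ n, h3]
    _ ≤ (discr M).natAbs ^ n := Nat.pow_le_pow_left h2 n

/-- **The discriminant and the size of an element whose conjugates generate the normal closure.** -/
theorem disc_le_of_closure {n m : ℕ} (hn : Module.finrank ℚ L = n) (hm : Module.finrank ℚ M = m)
    [IsGalois ℚ M] (hX : Fintype.card (L →ₐ[ℚ] M) = n) (hn0 : 0 < n) (z : 𝓞 L)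
    (hone : ∀ ν : Gal(M/ℚ), (∀ τ : L →ₐ[ℚ] M, ν (τ (z : L)) = τ (z : L)) → ν = 1)
    {B : ℝ} (hB0 : 0 ≤ B) (hB : ∀ w : InfinitePlace L, w (z : L) ≤ B) :
    |(discr L : ℝ)| ≤ (2 * (n * ((m * n : ℕ) : ℝ) ^ n * B)) ^ (n * (m - 1)) := by
  have hm0 : 0 < m := by rw [← hm]; exact Module.finrank_pos
  obtain ⟨θ, hθ, hθB⟩ := exists_small_gen hm hX hn0 z hone hB
  have h1 := Pool.Agent.V7H55.LT.disc_bound_ideal hm θ hθ ⊤ top_ne_bot 1 one_pos
    Submodule.mem_top Submodule.mem_top hθB
  rw [Ideal.absNorm_top, Nat.cast_one, one_pow, one_pow, one_mul, one_pow, one_mul] at h1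
  obtain ⟨τ⟩ : Nonempty (L →ₐ[ℚ] M) := by
    rw [← Fintype.card_pos_iff, hX]; exact hn0
  have h2 := disc_tower hn hm τ
  have h2' : |(discr L : ℝ)| ^ m ≤ |(discr M : ℝ)| ^ n := by
    rw [Pool.Agent.V7H55.LT.abs_discr_eq, Pool.Agent.V7H55.LT.abs_discr_eq]
    exact_mod_cast h2
  set C : ℝ := 2 * (n * ((m * n : ℕ) : ℝ) ^ n * B) with hC
  have hC0 : 0 ≤ C := by positivity
  have h3 : |(discr L : ℝ)| ^ m ≤ (C ^ (n * (m - 1))) ^ m := by
    calc |(discr L : ℝ)| ^ m ≤ |(discr M : ℝ)| ^ n := h2'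
      _ ≤ (C ^ (m * (m - 1))) ^ n := pow_le_pow_left₀ (abs_nonneg _) h1 n
      _ = (C ^ (n * (m - 1))) ^ m := by
          rw [← pow_mul, ← pow_mul]
          congr 1
          ring
  exact le_of_pow_le_pow_left₀ hm0.ne' (by positivity) h3

end

end Pool.Agent.V7H55.GG
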