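import Pool.Agent.V7H55.GG.Prim

/-! Fields without intermediate fields, and Galois fields. -/

set_option autoImplicit false

namespace Pool.Agent.V7H55.GG

open NumberField Finset Pool.Agent.V7H55.LT IntermediateField
open scoped Classical

section
variable {L M : Type} [Field L] [NumberField L] [Field M] [NumberField M]

theorem act_pow (σ : Gal(M/ℚ)) (k : ℕ) (τ : L →ₐ[ℚ] M) : (act L M σ ^ k) τ = mv (σ ^ k) τ := by
  rw [← map_pow]
  rfl

/-- a short return time in an orbit -/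
theorem exists_return (f : Equiv.Perm (L →ₐ[ℚ] M)) (τ : L →ₐ[ℚ] M) :
    ∃ k : ℕ, 1 ≤ k ∧ k ≤ (Finset.univ.filter (fun ρ => f.SameCycle τ ρ)).card ∧ (f ^ k) τ = τ := by
  set O := Finset.univ.filter (fun ρ => f.SameCycle τ ρ) with hO
  obtain ⟨i, hi, j, hj, hij, he⟩ := Finset.exists_ne_map_eq_of_card_lt_of_maps_to
    (s := Finset.range (O.card + 1)) (t := O) (f := fun k => (f ^ k) τ) (by simp) (by
      intro k _
      simp only [hO, Finset.coe_filter, Finset.mem_univ, true_and, Set.mem_ofPred_eq]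
      exact ⟨k, by simp⟩)
  have key : ∀ i j : ℕ, i < j → j < O.card + 1 → (f ^ i) τ = (f ^ j) τ →
      ∃ k : ℕ, 1 ≤ k ∧ k ≤ O.card ∧ (f ^ k) τ = τ := by
    intro i j hlt hjlt h
    refine ⟨j - i, by omega, by omega, ?_⟩
    have h1 : f ^ j = f ^ i * f ^ (j - i) := by rw [← pow_add]; congr 1; omega
    rw [h1, Equiv.Perm.mul_apply] at h
    exact ((f ^ i).injective h).symm
  rcases lt_or_gt_of_ne hij with h | h
  · exact key i j h (Finset.mem_range.mp hj) he
  · exact key j i h (Finset.mem_range.mp hi) he.symm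

/-- **Fields without intermediate fields whose Galois group has no cycle of full length.** -/
theorem small_of_prim {n : ℕ} (hn : Module.finrank ℚ L = n) [IsNormalClosure ℚ L M]
    (hprim : ∀ E : IntermediateField ℚ L, E = ⊥ ∨ E = ⊤)
    (hcyc : ∀ σ : Gal(M/ℚ), ∃ τ τ' : L →ₐ[ℚ] M, ∀ k : ℕ, τ' ≠ mv (σ ^ k) τ) :
    SmallOrbits L M (n / 2) := by
  intro σ
  obtain ⟨τ₁, τ₂, h12⟩ := hcyc σ
  set f := act L M σ with hf
  have hns : ¬ f.SameCycle τ₁ τ₂ := by
    intro h
    obtain ⟨i, hi⟩ := h.exists_nat_pow_eq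
    rw [act_pow] at hi
    exact h12 i hi.symm
  have hns' : ¬ f.SameCycle τ₂ τ₁ := fun h => hns h.symm
  have hcard : (Finset.univ.filter (fun ρ => f.SameCycle τ₁ ρ)).card +
      (Finset.univ.filter (fun ρ => f.SameCycle τ₂ ρ)).card ≤ n := by
    rw [← Finset.card_union_of_disjoint]
    · rw [← hn, ← card_hom L M, ← Finset.card_univ]
      exact Finset.card_le_card (Finset.subset_univ _)
    · rw [Finset.disjoint_left]
      intro ρ h1 h2
      exact hns ((Finset.mem_filter.mp h1).2.trans (Finset.mem_filter.mp h2).2.symm)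
  have key : ∀ τ τ' : L →ₐ[ℚ] M, ¬ f.SameCycle τ τ' →
      (Finset.univ.filter (fun ρ => f.SameCycle τ ρ)).card ≤ n / 2 →
      (∃ k : ℕ, 1 ≤ k ∧ k ≤ n / 2 ∧ mv (σ ^ k) τ = τ) ∧
      ∀ E : IntermediateField ℚ L, E ≠ ⊤ → ∃ τ' : L →ₐ[ℚ] M, (∀ x ∈ E, τ' x = τ x) ∧
      ∀ k : ℕ, τ' ≠ mv (σ ^ k) τ := by
    intro τ τ' hne hc
    obtain ⟨k, hk1, hk2, hk3⟩ := exists_return f τ
    rw [act_pow] at hk3
    refine ⟨⟨k, hk1, hk2.trans hc, hk3⟩, ?_⟩
    intro E hE
    refine ⟨τ', ?_, ?_⟩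
    · intro x hx
      rcases hprim E with h | h
      · rw [h, IntermediateField.mem_bot] at hx
        obtain ⟨q, rfl⟩ := hx
        rw [AlgHom.commutes, AlgHom.commutes]
      · exact absurd h hE
    · intro k h
      exact hne ⟨k, by rw [zpow_natCast, act_pow, h]⟩
  rcases le_total (Finset.univ.filter (fun ρ => f.SameCycle τ₁ ρ)).card
      (Finset.univ.filter (fun ρ => f.SameCycle τ₂ ρ)).card with h | h
  · exact ⟨τ₁, key τ₁ τ₂ hns (by omega)⟩
  · exact ⟨τ₂, key τ₂ τ₁ hns' (by omega)⟩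

/-- a Galois field is its own normal closure -/
theorem isNormalClosure_self [IsGalois ℚ L] : IsNormalClosure ℚ L L := by
  rw [Algebra.IsAlgebraic.isNormalClosure_iff]
  refine ⟨fun x => Normal.splits inferInstance x, ?_⟩
  rw [eq_top_iff]
  intro x _
  rw [normalClosure_def]
  have h1 : (AlgHom.id ℚ L).fieldRange ≤ ⨆ f : L →ₐ[ℚ] L, f.fieldRange := le_iSup _ _
  exact h1 ⟨x, rfl⟩

/-- **Galois fields without nontrivial cyclic normal subgroups.** -/
theorem good_of_galois [IsGalois ℚ L]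
    (h : ∀ N : Subgroup Gal(L/ℚ), N.Normal → IsCyclic N → N = ⊥) : Good L L := by
  intro σ
  refine ⟨AlgHom.id ℚ L, fun N hN hNb => ?_⟩
  by_contra hcon
  push Not at hcon
  apply hNb
  apply h N hN
  have hle : N ≤ Subgroup.zpowers σ := by
    intro ν hν
    obtain ⟨k, hk⟩ := hcon ν hν
    have h1 : ν = σ ^ k := by
      ext x
      exact congrArg (fun f : L →ₐ[ℚ] L => f x) hk
    rw [h1]
    exact Subgroup.npow_mem_zpowers σ k
  exact isCyclic_of_injective (Subgroup.inclusion hle) (Subgroup.inclusion_injective hle)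

end

end Pool.Agent.V7H55.GG
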