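import Pool.Agent.V7H55.GG.Clo
import Pool.Agent.V7H55.LT.Cheb

/-! The bound for the torsion from an inequality for sets of primes. -/

set_option autoImplicit false

namespace Pool.Agent.V7H55.GG

open NumberField Finset Pool.Agent.TH847.LS Pool.Agent.TH847.LG Filter Topology
  Pool.Agent.V7H55.LT
open scoped Classical nonZeroDivisors

/-- **From an inequality for sets of primes to a bound for the torsion.** -/
theorem engine_abs (n : ℕ) (hn2 : 2 ≤ n) (ε : ℝ) (hε : 0 < ε) (κ : ℝ) (hκ : 2 ≤ κ) (c : ℝ)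
    (hc1 : 1 ≤ c) (T : ℕ → Prop)
    (hT : ∀ η : ℝ, 0 < η → ∀ᶠ X : ℕ in atTop,
      (X : ℝ) ^ (1 - η) ≤ ((range (X + 1)).filter fun p => p.Prime ∧ T p).card)
    (Q : ∀ (K : Type) [Field K] [NumberField K], Prop)
    (hpack : ∀ δ : ℝ, 0 < δ → ∃ C : ℝ, 0 < C ∧ ∀ l : ℕ, 1 ≤ l →
      ∀ (K : Type) [Field K] [NumberField K], Module.finrank ℚ K = n → Q K →
      ∀ (S : Finset ℕ) (X : ℕ), (∀ p ∈ S, p.Prime ∧ T p ∧ ¬ p ∣ (discr K).natAbs) →
      (∀ p ∈ S, p ≤ X) → (X : ℝ) ≤ ((discr K).natAbs : ℝ) ^ (1 / (κ * l) : ℝ) / c →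
      (Nat.card {c : ClassGroup (𝓞 K) // c ^ l = 1} : ℝ) * (S.card : ℝ) ≤
        C * ((discr K).natAbs : ℝ) ^ (1 / 2 + δ)) :
    ∃ C : ℝ, 0 < C ∧ ∀ l : ℕ, 1 ≤ l →
    ∀ (K : Type) [Field K] [NumberField K], Module.finrank ℚ K = n → Q K →
    (Nat.card {c : ClassGroup (𝓞 K) // c ^ l = 1} : ℝ) ≤
      C * |(discr K : ℝ)| ^ (1 / 2 - 1 / (κ * l) + ε : ℝ) := by
  set ε0 : ℝ := min ε 1 with hε0d
  have hε0 : 0 < ε0 := lt_min hε one_pos
  have hε01 : ε0 ≤ 1 := min_le_right _ _
  have hε0ε : ε0 ≤ ε := min_le_left _ _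
  have hnr : (2 : ℝ) ≤ n := by exact_mod_cast hn2
  obtain ⟨C0, hC00, hC0⟩ := tor_trivial n hn2 (ε0 / 4) (by positivity)
  obtain ⟨C1, hC10, hC1⟩ := hpack (ε0 / 4) (by positivity)
  set η : ℝ := ε0 / 4 with hη
  have hη0 : 0 < η := by positivity
  have hη1 : η ≤ 1 / 4 := by rw [hη]; linarith
  have hc0 : 0 < c := by linarith
  -- large `X`
  have hlog : ∀ᶠ X : ℕ in atTop,
      2 * ((2 / ε0) * Real.log (c * (X + 1))) ≤ (X : ℝ) ^ (1 - η) / 2 := by
    have h1 : Tendsto (fun x : ℝ => Real.log x / x ^ (1 - η)) atTop (𝓝 0) := by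
      have := isLittleO_log_rpow_atTop (r := 1 - η) (by linarith)
      exact this.tendsto_div_nhds_zero
    have h2 : Tendsto (fun X : ℕ => c * ((X : ℝ) + 1)) atTop atTop := by
      refine Tendsto.const_mul_atTop hc0 ?_
      exact tendsto_atTop_add_const_right _ _ tendsto_natCast_atTop_atTop
    have h3 := h1.comp h2
    set δ : ℝ := ε0 / 8 * ((2 * c)⁻¹) with hδ
    have hδ0 : 0 < δ := by positivity
    filter_upwards [h3.eventually (gt_mem_nhds hδ0), eventually_ge_atTop 1] with X hX hX1
    have hXr : (1 : ℝ) ≤ X := by exact_mod_cast hX1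
    simp only [Function.comp_apply] at hX
    have hp : 0 < (c * ((X : ℝ) + 1)) ^ (1 - η) := Real.rpow_pos_of_pos (by positivity) _
    rw [div_lt_iff₀ hp] at hX
    have h4 : (c * ((X : ℝ) + 1)) ^ (1 - η) ≤ (2 * c) * (X : ℝ) ^ (1 - η) := by
      calc (c * ((X : ℝ) + 1)) ^ (1 - η) ≤ ((2 * c) * (X : ℝ)) ^ (1 - η) := by
            refine Real.rpow_le_rpow (by positivity) ?_ (by linarith)
            nlinarith
        _ = (2 * c) ^ (1 - η) * (X : ℝ) ^ (1 - η) := Real.mul_rpow (by positivity) (by positivity)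
        _ ≤ (2 * c) ^ (1 : ℝ) * (X : ℝ) ^ (1 - η) := by
            gcongr
            · linarith
            · linarith
        _ = _ := by rw [Real.rpow_one]
    have h5 : Real.log (c * ((X : ℝ) + 1)) ≤ δ * ((2 * c) * (X : ℝ) ^ (1 - η)) :=
      hX.le.trans (by gcongr)
    have h6 : δ * ((2 * c) * (X : ℝ) ^ (1 - η)) = ε0 / 8 * (X : ℝ) ^ (1 - η) := by
      rw [hδ]; field_simp
    rw [h6] at h5
    calc 2 * ((2 / ε0) * Real.log (c * (X + 1))) ≤ 2 * ((2 / ε0) * (ε0 / 8 * (X : ℝ) ^ (1 - η))) := by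
          gcongr
      _ = (X : ℝ) ^ (1 - η) / 2 := by field_simp; ring
  obtain ⟨X1, hX1⟩ := eventually_atTop.mp ((hT η hη0).and (hlog.and (eventually_ge_atTop 1)))
  set B : ℝ := c * (X1 + 1) with hB
  have hB0 : 0 < B := by positivity
  refine ⟨C0 * (1 + B) + C1 * (4 * c), by positivity, ?_⟩
  intro l hl K _ _ hn hK
  rw [abs_discr_eq]
  set D := (discr K).natAbs with hD
  have hD2 : 2 < D := two_lt_D hn2 K hn
  have hDr : (2 : ℝ) < D := by exact_mod_cast hD2
  have hD0 : (0 : ℝ) < D := by linarith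
  have hD1 : (1 : ℝ) ≤ D := by linarith
  have hlr : (1 : ℝ) ≤ l := by exact_mod_cast hl
  set θ : ℝ := 1 / (κ * l) with hθ
  have hκ0 : 0 < κ := by linarith
  have hθ0 : 0 < θ := by
    rw [hθ]; positivity
  have hθ1 : θ ≤ 1 / 2 := by
    rw [hθ, div_le_div_iff₀ (by positivity) (by norm_num)]
    nlinarith
  have htriv := hC0 l K hn
  rw [← hD] at htriv
  have hmain : (Nat.card {c : ClassGroup (𝓞 K) // c ^ l = 1} : ℝ) ≤
      (C0 * (1 + B) + C1 * (4 * c)) * (D : ℝ) ^ (1 / 2 - θ + ε0) := by
    rcases le_or_gt θ (ε0 / 2) with hcase | hcase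
    · calc (Nat.card {c : ClassGroup (𝓞 K) // c ^ l = 1} : ℝ) ≤ C0 * (D : ℝ) ^ (1 / 2 + ε0 / 4) := htriv
        _ ≤ C0 * (D : ℝ) ^ (1 / 2 - θ + ε0) :=
            mul_le_mul_of_nonneg_left (Real.rpow_le_rpow_of_exponent_le hD1 (by linarith)) hC00.le
        _ ≤ _ := by
            have : C0 ≤ C0 * (1 + B) + C1 * (4 * c) := by
              have : 0 ≤ C0 * B + C1 * (4 * c) := by positivity
              linarith
            gcongr
    · set y : ℝ := (D : ℝ) ^ θ / c with hy
      have hy0 : 0 < y := by positivity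
      set X : ℕ := ⌊y⌋₊ with hX
      rcases Nat.lt_or_ge X X1 with hlt | hge
      · -- bounded
        have h1 : (D : ℝ) ^ θ ≤ B := by
          have h2 : y < X + 1 := Nat.lt_floor_add_one y
          have h3 : (X : ℝ) + 1 ≤ X1 + 1 := by exact_mod_cast (by omega : X + 1 ≤ X1 + 1)
          rw [hy, div_lt_iff₀ hc0] at h2
          rw [hB]
          nlinarith
        calc (Nat.card {c : ClassGroup (𝓞 K) // c ^ l = 1} : ℝ)
            ≤ C0 * (D : ℝ) ^ (1 / 2 + ε0 / 4) := htriv
          _ = C0 * ((D : ℝ) ^ θ * (D : ℝ) ^ (1 / 2 - θ + ε0 / 4)) := by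
              rw [← Real.rpow_add hD0]
              congr 2
              ring
          _ ≤ C0 * (B * (D : ℝ) ^ (1 / 2 - θ + ε0)) :=
              mul_le_mul_of_nonneg_left (mul_le_mul h1
                (Real.rpow_le_rpow_of_exponent_le hD1 (by linarith)) (by positivity) hB0.le) hC00.le
          _ ≤ _ := by
              have : C0 * B ≤ C0 * (1 + B) + C1 * (4 * c) := by
                have : 0 ≤ C0 + C1 * (4 * c) := by positivity
                linarith
              calc C0 * (B * (D : ℝ) ^ (1 / 2 - θ + ε0)) = (C0 * B) * (D : ℝ) ^ (1 / 2 - θ + ε0) := by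
                    ring
                _ ≤ _ := by gcongr
      · obtain ⟨g1, g2, g3⟩ := hX1 X hge
        have hXr : (1 : ℝ) ≤ X := by exact_mod_cast g3
        have hXy : (X : ℝ) ≤ y := Nat.floor_le hy0.le
        have hyX : y < X + 1 := Nat.lt_floor_add_one y
        -- the primes
        set S : Finset ℕ := ((range (X + 1)).filter fun p => p.Prime ∧ T p).filter
          (fun p => ¬ p ∣ D) with hS
        have hSX : ∀ p ∈ S, p ≤ X := by
          intro p hp
          have := Finset.mem_range.mp (Finset.mem_filter.mp (Finset.mem_filter.mp hp).1).1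
          omega
        have hSgood : ∀ p ∈ S, p.Prime ∧ T p ∧ ¬ p ∣ (discr K).natAbs := by
          intro p hp
          obtain ⟨h1, h2⟩ := Finset.mem_filter.mp hp
          obtain ⟨-, h3, h4⟩ := Finset.mem_filter.mp h1
          exact ⟨h3, h4, h2⟩
        have hcount : (X : ℝ) ^ (1 - η) / 2 ≤ S.card := by
          have h1 : ((range (X + 1)).filter fun p => p.Prime ∧ T p).card ≤
              S.card + D.primeFactors.card := by
            rw [hS, ← Finset.card_filter_add_card_filter_not (fun p => ¬ p ∣ D)]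
            refine Nat.add_le_add_left (Finset.card_le_card ?_) _
            intro p hp
            obtain ⟨h1, h2⟩ := Finset.mem_filter.mp hp
            obtain ⟨-, h3, -⟩ := Finset.mem_filter.mp h1
            rw [not_not] at h2
            exact Nat.mem_primeFactors.mpr ⟨h3, h2, by omega⟩
          have h2 : (((range (X + 1)).filter fun p => p.Prime ∧ T p).card : ℝ) ≤
              S.card + D.primeFactors.card := by exact_mod_cast h1
          have h3 := card_primeFactors_le D (by omega)
          have h4 : Real.log D ≤ (2 / ε0) * Real.log (c * (X + 1)) := by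
            have h5 : (D : ℝ) ^ θ ≤ c * (X + 1) := by
              rw [hy, div_lt_iff₀ hc0] at hyX
              linarith
            have h6 := Real.log_le_log (by positivity) h5
            rw [Real.log_rpow hD0] at h6
            have h7 : 0 ≤ Real.log D := Real.log_nonneg hD1
            rw [div_mul_eq_mul_div, le_div_iff₀ hε0]
            nlinarith
          linarith
        have key := hC1 l hl K hn hK S X hSgood hSX hXy
        have hX2 : y / 2 ≤ X := by
          linarith
        have h5 : (D : ℝ) ^ (θ - η) / (2 * c) ≤ (X : ℝ) ^ (1 - η) := by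
          calc (D : ℝ) ^ (θ - η) / (2 * c) ≤ (D : ℝ) ^ (θ * (1 - η)) / (2 * c) := by
                refine div_le_div_of_nonneg_right
                  (Real.rpow_le_rpow_of_exponent_le hD1 (by nlinarith)) (by positivity)
            _ ≤ (D : ℝ) ^ (θ * (1 - η)) / (2 * c) ^ (1 - η) := by
                gcongr
                calc (2 * c) ^ (1 - η) ≤ (2 * c) ^ (1 : ℝ) :=
                      Real.rpow_le_rpow_of_exponent_le (by linarith) (by linarith)
                  _ = 2 * c := Real.rpow_one _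
            _ = (y / 2) ^ (1 - η) := by
                rw [hy, Real.rpow_mul hD0.le, ← Real.div_rpow (by positivity) (by positivity)]
                congr 1
                field_simp
            _ ≤ (X : ℝ) ^ (1 - η) := Real.rpow_le_rpow (by positivity) hX2 (by linarith)
        set N : ℝ := (Nat.card {c : ClassGroup (𝓞 K) // c ^ l = 1} : ℝ) with hN
        have hN0 : 0 ≤ N := Nat.cast_nonneg _
        have hpos : 0 < (D : ℝ) ^ (θ - η) / (4 * c) := by positivity
        have h6 : N * ((D : ℝ) ^ (θ - η) / (4 * c)) ≤ C1 * (D : ℝ) ^ (1 / 2 + ε0 / 4) := by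
          refine le_trans ?_ key
          gcongr
          calc (D : ℝ) ^ (θ - η) / (4 * c) = ((D : ℝ) ^ (θ - η) / (2 * c)) / 2 := by
                field_simp; norm_num
            _ ≤ (X : ℝ) ^ (1 - η) / 2 := by gcongr
            _ ≤ S.card := hcount
        calc N = N * ((D : ℝ) ^ (θ - η) / (4 * c)) * ((4 * c) * (D : ℝ) ^ (-(θ - η))) := by
              rw [Real.rpow_neg hD0.le]
              field_simp
          _ ≤ C1 * (D : ℝ) ^ (1 / 2 + ε0 / 4) * ((4 * c) * (D : ℝ) ^ (-(θ - η))) := by gcongr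
          _ = C1 * (4 * c) * (D : ℝ) ^ (1 / 2 - θ + ε0 / 2) := by
              have : (D : ℝ) ^ (1 / 2 - θ + ε0 / 2) =
                  (D : ℝ) ^ (1 / 2 + ε0 / 4) * (D : ℝ) ^ (-(θ - η)) := by
                rw [← Real.rpow_add hD0]
                congr 1
                rw [hη]; ring
              rw [this]; ring
          _ ≤ C1 * (4 * c) * (D : ℝ) ^ (1 / 2 - θ + ε0) :=
              mul_le_mul_of_nonneg_left (Real.rpow_le_rpow_of_exponent_le hD1 (by linarith))
                (by positivity)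
          _ ≤ _ := by
              have : C1 * (4 * c) ≤ C0 * (1 + B) + C1 * (4 * c) := by
                have : 0 ≤ C0 * (1 + B) := by positivity
                linarith
              gcongr
  refine hmain.trans ?_
  gcongr

end Pool.Agent.V7H55.GG
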