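import Pool.Agent.V7H55.GG.Eng

/-! Fields in which every Frobenius element gives a usable prime ideal. -/

set_option autoImplicit false

namespace Pool.Agent.V7H55.GG

open NumberField Finset Pool.Agent.TH847.LS Pool.Agent.TH847.LG Filter Topology
  Pool.Agent.V7H55.LT Pool.Agent.W401.Cheb
open scoped Classical nonZeroDivisors

/-- all primes are a dense set -/
theorem all_dense (η : ℝ) (hη : 0 < η) : ∀ᶠ X : ℕ in atTop,
    (X : ℝ) ^ (1 - η) ≤ ((range (X + 1)).filter fun p => p.Prime ∧ True).card := by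
  refine dense_of_count _ 1 one_pos ?_ η hη
  filter_upwards with X
  rw [one_mul]
  have h1 : (range (X + 1)).filter (fun p => p.Prime ∧ True) = (range (X + 1)).filter Nat.Prime := by
    simp
  rw [h1]
  have h2 : Nat.primeCounting X = ((range (X + 1)).filter Nat.Prime).card := by
    rw [Nat.primeCounting, Nat.primeCounting', Nat.count_eq_card_filter_range]
  rw [h2]

section
variable {L M : Type} [Field L] [NumberField L] [Field M] [NumberField M]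

/-- Every element of the Galois group has an orbit on the embeddings that is not invariant under
any nontrivial normal subgroup. -/
def Good (L M : Type) [Field L] [NumberField L] [Field M] [NumberField M] : Prop :=
  ∀ σ : Gal(M/ℚ), ∃ τ : L →ₐ[ℚ] M, ∀ N : Subgroup Gal(M/ℚ), N.Normal → N ≠ ⊥ →
    ∃ ν ∈ N, ∀ k : ℕ, mv ν τ ≠ mv (σ ^ k) τ

/-- the prime ideals of `L` that generate the normal closure -/
theorem exists_prime [IsGalois ℚ M] (hX : Fintype.card (L →ₐ[ℚ] M) = Module.finrank ℚ L)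
    (hgood : Good L M) {p : ℕ} (hp : p.Prime) (hpL : ¬ p ∣ (discr L).natAbs) :
    ∃ P J : (Ideal (𝓞 L))⁰, (P : Ideal (𝓞 L)) * (J : Ideal (𝓞 L)) =
      Ideal.span {((p : ℕ) : 𝓞 L)} ∧ ∀ (z : 𝓞 L) (I : Ideal (𝓞 L)) (l : ℕ), 1 ≤ l →
      Nat.Coprime (Ideal.absNorm I) p → Ideal.span {z} = (P : Ideal (𝓞 L)) ^ l * I →
      ∀ ν : Gal(M/ℚ), (∀ τ : L →ₐ[ℚ] M, ν (τ (z : L)) = τ (z : L)) → ν = 1 := by
  have hpF : Fact p.Prime := ⟨hp⟩
  obtain ⟨φ⟩ := exists_hom M p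
  obtain ⟨σ, hσ⟩ := exists_frob_all φ
  obtain ⟨τ, hτ⟩ := hgood σ
  have hP0 : RingHom.ker (res φ τ) ≠ ⊥ := ker_ne_bot hp φ τ
  have hdvd : RingHom.ker (res φ τ) ∣ Ideal.span {((p : ℕ) : 𝓞 L)} := by
    rw [Ideal.dvd_iff_le, Ideal.span_le, Set.singleton_subset_iff]
    exact mem_ker_p φ τ
  obtain ⟨J, hJ⟩ := hdvd
  have hJ0 : J ≠ ⊥ := by
    rintro rfl
    rw [Ideal.mul_bot, Ideal.span_singleton_eq_bot] at hJ
    exact hp.ne_zero (by exact_mod_cast hJ)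
  refine ⟨⟨RingHom.ker (res φ τ), mem_nonZeroDivisors_of_ne_zero hP0⟩,
    ⟨J, mem_nonZeroDivisors_of_ne_zero hJ0⟩, hJ.symm, ?_⟩
  intro z I l hl hI hz
  refine eq_one_of_gen (z : L) ?_
  intro N hN hNb
  obtain ⟨ν, hν, hk⟩ := hτ N hN hNb
  refine ⟨ν, hν, τ, fun h => ?_⟩
  obtain ⟨k, hk'⟩ := key_lemma hX hpL φ σ hσ τ (mv ν τ) z I hl hI hz h
  exact hk k hk'

end

/-- the size condition -/
theorem size_cond2 {κ l : ℕ} (hκ : 1 ≤ κ) (hl : 1 ≤ l) {A c D y : ℝ} (hA : 1 ≤ A)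
    (hc : 150 * A < c) (hD : 0 < D) (hy0 : 0 ≤ y)
    (hy : y ≤ D ^ (1 / (κ * l) : ℝ) / c) : (A * (150 ^ l * y ^ l)) ^ κ < D := by
  have hc0 : 0 < c := by linarith
  have hl' : (0 : ℝ) < l := by exact_mod_cast hl
  have hκ' : (0 : ℝ) < κ := by exact_mod_cast hκ
  have h1 : A * (150 ^ l * y ^ l) ≤ (150 * A * y) ^ l := by
    rw [mul_pow, mul_pow]
    have h2 : A ≤ A ^ l := by
      calc A = A ^ 1 := (pow_one A).symm
        _ ≤ A ^ l := pow_le_pow_right₀ hA hl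
    have h3 : (0 : ℝ) ≤ 150 ^ l * y ^ l := by positivity
    nlinarith
  have hD1 : 0 < D ^ (1 / (κ * l) : ℝ) := Real.rpow_pos_of_pos hD _
  have h2 : 150 * A * y < D ^ (1 / (κ * l) : ℝ) := by
    calc 150 * A * y ≤ 150 * A * (D ^ (1 / (κ * l) : ℝ) / c) := by gcongr
      _ = (150 * A / c) * D ^ (1 / (κ * l) : ℝ) := by ring
      _ < 1 * D ^ (1 / (κ * l) : ℝ) := by
          refine mul_lt_mul_of_pos_right ?_ hD1
          rw [div_lt_one hc0]; exact hc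
      _ = _ := one_mul _
  have h4 : (A * (150 ^ l * y ^ l)) ^ κ ≤ (150 * A * y) ^ (l * κ) := by
    rw [pow_mul]
    exact pow_le_pow_left₀ (by positivity) h1 κ
  refine h4.trans_lt ?_
  calc (150 * A * y) ^ (l * κ) < (D ^ (1 / (κ * l) : ℝ)) ^ (l * κ) :=
        pow_lt_pow_left₀ h2 (by positivity) (by positivity)
    _ = D := by
        rw [← Real.rpow_natCast, ← Real.rpow_mul hD.le]
        have : (1 / (κ * l) : ℝ) * ((l * κ : ℕ) : ℝ) = 1 := by
          push_cast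
          field_simp
        rw [this, Real.rpow_one]

/-- the inequality for sets of primes -/
theorem pack_good (n : ℕ) (hn2 : 2 ≤ n) (m : ℕ) (hm2 : 2 ≤ m) (δ : ℝ) (hδ : 0 < δ) :
    ∃ C : ℝ, 0 < C ∧ ∀ l : ℕ, 1 ≤ l →
    ∀ (L : Type) [Field L] [NumberField L], Module.finrank ℚ L = n →
    (∃ (M : Type) (_ : Field M) (_ : NumberField M), IsNormalClosure ℚ L M ∧
      Module.finrank ℚ M = m ∧ Good L M) →
    ∀ (S : Finset ℕ) (X : ℕ), (∀ p ∈ S, p.Prime ∧ True ∧ ¬ p ∣ (discr L).natAbs) →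
    (∀ p ∈ S, p ≤ X) → (X : ℝ) ≤ ((discr L).natAbs : ℝ) ^
      (1 / (((n * (m - 1) : ℕ) : ℝ) * l) : ℝ) / (150 * (2 * (n * ((m * n : ℕ) : ℝ) ^ n)) + 1) →
    (Nat.card {c : ClassGroup (𝓞 L) // c ^ l = 1} : ℝ) * (S.card : ℝ) ≤
      C * ((discr L).natAbs : ℝ) ^ (1 / 2 + δ) := by
  obtain ⟨C, hC0, hC⟩ := Pool.Agent.Y159.PT.W_bound n hn2 δ hδ
  refine ⟨C, hC0, ?_⟩
  intro l hl L _ _ hn hM S X hS hSX hX
  obtain ⟨M, _, _, hM, hm, hgood⟩ := hM
  have hgal : IsGalois ℚ M := isGalois_nc L M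
  have hXc : Fintype.card (L →ₐ[ℚ] M) = Module.finrank ℚ L := card_hom L M
  obtain ⟨N, hXN, hW⟩ := hC L hn
  refine le_trans ?_ hW
  have hex : ∀ p : {p // p ∈ S}, ∃ P J : (Ideal (𝓞 L))⁰, (P : Ideal (𝓞 L)) * (J : Ideal (𝓞 L)) =
      Ideal.span {((p.1 : ℕ) : 𝓞 L)} ∧ ∀ (z : 𝓞 L) (I : Ideal (𝓞 L)) (l : ℕ), 1 ≤ l →
      Nat.Coprime (Ideal.absNorm I) p.1 → Ideal.span {z} = (P : Ideal (𝓞 L)) ^ l * I →
      ∀ ν : Gal(M/ℚ), (∀ τ : L →ₐ[ℚ] M, ν (τ (z : L)) = τ (z : L)) → ν = 1 := fun p =>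
    exists_prime hXc hgood (hS p.1 p.2).1 (hS p.1 p.2).2.2
  choose P J hPJ hgen using hex
  have key := ev_norm hn hl N hXN {p // p ∈ S} (fun p => p.1) P J
    (fun p => ⟨(hS p.1 p.2).1.pos, hPJ p⟩)
    (fun p q => Ideal.absNorm (P q : Ideal (𝓞 L)) ≤ Ideal.absNorm (P p : Ideal (𝓞 L)))
    (fun p q => le_total _ _) (by
      intro p q hne hle z hz0 hz hw
      have hpp := (hS p.1 p.2).1
      have hqp := (hS q.1 q.2).1
      have hX1 : 1 ≤ X := hpp.one_lt.le.trans (hSX p.1 p.2)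
      -- the norm
      have hnorm : Ideal.absNorm (P p : Ideal (𝓞 L)) * Ideal.absNorm (J p : Ideal (𝓞 L)) =
          p.1 ^ n := by
        rw [← map_mul, hPJ, Ideal.absNorm_span_natCast, RingOfIntegers.rank, hn]
      have hle2 : Ideal.absNorm (P q : Ideal (𝓞 L)) * Ideal.absNorm (J p : Ideal (𝓞 L)) ≤
          X ^ n := by
        calc Ideal.absNorm (P q : Ideal (𝓞 L)) * Ideal.absNorm (J p : Ideal (𝓞 L))
            ≤ Ideal.absNorm (P p : Ideal (𝓞 L)) * Ideal.absNorm (J p : Ideal (𝓞 L)) :=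
              Nat.mul_le_mul_right _ hle
          _ = p.1 ^ n := hnorm
          _ ≤ X ^ n := Nat.pow_le_pow_left (hSX p.1 p.2) n
      have hB : ∀ w : InfinitePlace L, w (z : L) ≤ 150 ^ l * (X : ℝ) ^ l := by
        intro w
        have h1 := hw w
        have h2 : (((Ideal.absNorm (P q : Ideal (𝓞 L)) * Ideal.absNorm (J p : Ideal (𝓞 L))) ^ l :
            ℕ) : ℝ) ≤ ((X : ℝ) ^ l) ^ n := by
          calc (((Ideal.absNorm (P q : Ideal (𝓞 L)) * Ideal.absNorm (J p : Ideal (𝓞 L))) ^ l :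
              ℕ) : ℝ) ≤ (((X ^ n) ^ l : ℕ) : ℝ) := by
                exact_mod_cast Nat.pow_le_pow_left hle2 l
            _ = ((X : ℝ) ^ l) ^ n := by
                push_cast
                rw [← pow_mul, ← pow_mul, mul_comm]
        have h3 : w (z : L) ^ n ≤ (150 ^ l * (X : ℝ) ^ l) ^ n := by
          rw [mul_pow]
          exact h1.trans (by gcongr)
        exact le_of_pow_le_pow_left₀ (by omega) (by positivity) h3
      -- coprimality
      have hcop : Nat.Coprime (Ideal.absNorm ((J p : Ideal (𝓞 L)) ^ l)) q.1 := by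
        rw [map_pow]
        refine Nat.Coprime.pow_left _ ?_
        have h1 : Ideal.absNorm (J p : Ideal (𝓞 L)) ∣ p.1 ^ n := Dvd.intro_left _ hnorm
        refine Nat.Coprime.coprime_dvd_left h1 (Nat.Coprime.pow_left _ ?_)
        exact (Nat.coprime_primes hpp hqp).mpr (fun h => hne (Subtype.ext h))
      have hone := hgen q z ((J p : Ideal (𝓞 L)) ^ l) l hl hcop hz
      have hdisc := disc_le_of_closure hn hm (by rw [hXc, hn]) (by omega) z hone
        (by positivity) hB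
      rw [abs_discr_eq] at hdisc
      have hD2 : 2 < (discr L).natAbs := two_lt_D hn2 L hn
      have hDr : (2 : ℝ) < (discr L).natAbs := by exact_mod_cast hD2
      have hmn : (1 : ℝ) ≤ ((m * n : ℕ) : ℝ) := by
        exact_mod_cast Nat.mul_pos (by omega) (by omega)
      have hnr : (1 : ℝ) ≤ n := by exact_mod_cast (by omega : 1 ≤ n)
      have hA : (1 : ℝ) ≤ 2 * (n * ((m * n : ℕ) : ℝ) ^ n) := by
        have : (1 : ℝ) ≤ ((m * n : ℕ) : ℝ) ^ n := one_le_pow₀ hmn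
        nlinarith
      have hκ : 1 ≤ n * (m - 1) := Nat.mul_pos (by omega) (by omega)
      have hlt := size_cond2 hκ hl hA (lt_add_one _) (by linarith) (Nat.cast_nonneg X) hX
      have he : 2 * (n * ((m * n : ℕ) : ℝ) ^ n * (150 ^ l * (X : ℝ) ^ l)) =
          2 * (n * ((m * n : ℕ) : ℝ) ^ n) * (150 ^ l * (X : ℝ) ^ l) := by ring
      rw [he] at hdisc
      exact absurd hdisc (not_le.mpr hlt))
  rw [Fintype.card_coe] at key
  rw [mul_comm]
  exact key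

/-- **The bound for the torsion.** -/
theorem good_bound (n : ℕ) (hn2 : 2 ≤ n) (m : ℕ) (hm2 : 2 ≤ m) (ε : ℝ) (hε : 0 < ε) :
    ∃ C : ℝ, 0 < C ∧ ∀ l : ℕ, 1 ≤ l →
    ∀ (L : Type) [Field L] [NumberField L], Module.finrank ℚ L = n →
    (∃ (M : Type) (_ : Field M) (_ : NumberField M), IsNormalClosure ℚ L M ∧
      Module.finrank ℚ M = m ∧ Good L M) →
    (Nat.card {c : ClassGroup (𝓞 L) // c ^ l = 1} : ℝ) ≤
      C * |(discr L : ℝ)| ^ (1 / 2 - 1 / (((n * (m - 1) : ℕ) : ℝ) * l) + ε : ℝ) := by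
  have hκ : (2 : ℝ) ≤ ((n * (m - 1) : ℕ) : ℝ) := by
    have : 2 ≤ n * (m - 1) := by
      calc 2 = 2 * 1 := rfl
        _ ≤ n * (m - 1) := Nat.mul_le_mul hn2 (by omega)
    exact_mod_cast this
  have hc : (1 : ℝ) ≤ 150 * (2 * (n * ((m * n : ℕ) : ℝ) ^ n)) + 1 := by
    have : (0 : ℝ) ≤ 150 * (2 * (n * ((m * n : ℕ) : ℝ) ^ n)) := by positivity
    linarith
  exact engine_abs n hn2 ε hε _ hκ _ hc (fun _ => True) (fun η hη => by convert all_dense η hη)
    (fun (L : Type) [Field L] [NumberField L] => ∃ (M : Type) (_ : Field M) (_ : NumberField M),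
      IsNormalClosure ℚ L M ∧ Module.finrank ℚ M = m ∧ Good L M)
    (fun δ hδ => pack_good n hn2 m hm2 δ hδ)

end Pool.Agent.V7H55.GG
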