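import Pool.Agent.V7H55.GG.Main

/-! Prime ideals of small residue degree that generate the field itself. -/

set_option autoImplicit false

namespace Pool.Agent.V7H55.GG

open NumberField Finset Pool.Agent.TH847.LS Pool.Agent.TH847.LG Filter Topology
  Pool.Agent.V7H55.LT Pool.Agent.W401.Cheb IntermediateField
open scoped Classical nonZeroDivisors

/-- the discriminant bound for a generator of `Q^l J^l` -/
theorem disc_le_gen {K : Type} [Field K] [NumberField K] {n : ℕ}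
    (hn : Module.finrank ℚ K = n) (hn2 : 2 ≤ n) {l : ℕ}
    (z : 𝓞 K) (hz : ℚ⟮(z : K)⟯ = ⊤) (P J Q : Ideal (𝓞 K)) {a : ℕ} (ha : 0 < a)
    (hPJ : P * J = Ideal.span {((a : ℕ) : 𝓞 K)})
    (hspan : Ideal.span {z} = Q ^ l * J ^ l)
    (hw : ∀ w : InfinitePlace K, w (z : K) ^ n ≤ ((150 : ℝ) ^ l) ^ n *
        (((Ideal.absNorm Q * Ideal.absNorm J) ^ l : ℕ) : ℝ)) :
    |(discr K : ℝ)| ≤ (2 ^ n * ((150 : ℝ) ^ l) ^ n *
      (((Ideal.absNorm P * Ideal.absNorm Q : ℕ) : ℝ)) ^ l) ^ (n - 1) := by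
  have hn0 : 0 < n := by omega
  have hnr : (0 : ℝ) < n := by exact_mod_cast hn0
  have har : (0 : ℝ) < a := by exact_mod_cast ha
  set X : ℝ := ((150 : ℝ) ^ l) ^ n * (((Ideal.absNorm Q * Ideal.absNorm J) ^ l : ℕ) : ℝ) with hX
  have hX0 : 0 ≤ X := by positivity
  set B : ℝ := X ^ (1 / (n : ℝ)) with hB
  have hB0 : 0 ≤ B := Real.rpow_nonneg hX0 _
  have hBn : B ^ n = X := by
    rw [hB, ← Real.rpow_natCast, ← Real.rpow_mul hX0, one_div, inv_mul_cancel₀ hnr.ne',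
      Real.rpow_one]
  have hwB : ∀ w : InfinitePlace K, w (z : K) ≤ B := by
    intro w
    have h1 : w (z : K) ^ n ≤ B ^ n := by rw [hBn]; exact hw w
    exact le_of_pow_le_pow_left₀ hn0.ne' hB0 h1
  have hPJn : Ideal.absNorm P * Ideal.absNorm J = a ^ n := by
    rw [← map_mul, hPJ, Ideal.absNorm_span_natCast, RingOfIntegers.rank, hn]
  have hJpos : 0 < Ideal.absNorm J := by
    rcases Nat.eq_zero_or_pos (Ideal.absNorm J) with h | h
    · rw [h, mul_zero] at hPJn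
      exact absurd hPJn.symm (pow_pos ha n).ne'
    · exact h
  have hJ0 : J ≠ ⊥ := by
    rintro rfl
    rw [Ideal.absNorm_bot] at hJpos
    exact lt_irrefl _ hJpos
  have haJ : ((a ^ l : ℕ) : 𝓞 K) ∈ J ^ l := by
    push_cast
    refine Ideal.pow_mem_pow ?_ l
    have h1 : Ideal.span {((a : ℕ) : 𝓞 K)} ≤ J := by
      rw [← hPJ]; exact Ideal.mul_le_right
    exact h1 (Ideal.mem_span_singleton_self _)
  have hzJ : z ∈ J ^ l := by
    have h1 : Ideal.span {z} ≤ J ^ l := by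
      rw [hspan]; exact Ideal.mul_le_right
    exact h1 (Ideal.mem_span_singleton_self _)
  have key := disc_bound_ideal hn z hz (J ^ l) (pow_ne_zero _ hJ0) (a ^ l) (pow_pos ha l) haJ hzJ hwB
  rw [map_pow] at key
  set u : ℝ := ((Ideal.absNorm P : ℕ) : ℝ) ^ l with hu
  set v : ℝ := ((Ideal.absNorm J : ℕ) : ℝ) ^ l with hv
  set q : ℝ := ((Ideal.absNorm Q : ℕ) : ℝ) ^ l with hq
  have hJr : (0 : ℝ) < ((Ideal.absNorm J : ℕ) : ℝ) := by exact_mod_cast hJpos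
  have hv0 : 0 < v := pow_pos hJr l
  have huv : ((a ^ l : ℕ) : ℝ) ^ n = u * v := by
    have : (((Ideal.absNorm P * Ideal.absNorm J : ℕ) : ℝ)) ^ l = ((a ^ n : ℕ) : ℝ) ^ l := by
      rw [hPJn]
    push_cast at this ⊢
    rw [hu, hv, ← mul_pow, this, ← pow_mul, ← pow_mul, mul_comm]
  obtain ⟨m, rfl⟩ : ∃ m, n = m + 1 := ⟨n - 1, by omega⟩
  simp only [Nat.add_sub_cancel] at key ⊢
  have e1 : (2 * B) ^ ((m + 1) * m) = (2 ^ (m + 1) * X) ^ m := by
    rw [pow_mul, mul_pow, hBn]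
  have e2 : (((a ^ l : ℕ) : ℝ)) ^ ((m + 1) * m) = (u * v) ^ m := by
    rw [pow_mul, huv]
  have e3 : ((((Ideal.absNorm J ^ l : ℕ) : ℝ)) ^ m) ^ 2 = v ^ (2 * m) := by
    push_cast
    rw [← hv, ← pow_mul]
    congr 1
    ring
  have e4 : X = ((150 : ℝ) ^ l) ^ (m + 1) * (q * v) := by
    rw [hX]
    push_cast
    rw [hq, hv, mul_pow]
  rw [e1, e2, e3, e4] at key
  have hpos : (0 : ℝ) < v ^ (2 * m) := pow_pos hv0 _
  have e5 : (u * v) ^ m * (2 ^ (m + 1) * (((150 : ℝ) ^ l) ^ (m + 1) * (q * v))) ^ m =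
      v ^ (2 * m) * (2 ^ (m + 1) * ((150 : ℝ) ^ l) ^ (m + 1) * (u * q)) ^ m := by
    have : v ^ (2 * m) = v ^ m * v ^ m := by rw [← pow_add]; congr 1; ring
    rw [this]
    simp only [mul_pow]
    ring
  rw [e5] at key
  have h6 := le_of_mul_le_mul_left key hpos
  refine h6.trans (le_of_eq ?_)
  rw [hu, hq]
  push_cast
  rw [mul_pow ((Ideal.absNorm P : ℕ) : ℝ)]

section
variable {L M : Type} [Field L] [NumberField L] [Field M] [NumberField M]

/-- Every element of the Galois group has an orbit on the embeddings, with at most `f` elements,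
such that the embeddings with the same restriction to any given proper subfield are not all in the
orbit. -/
def SmallOrbits (L M : Type) [Field L] [NumberField L] [Field M] [NumberField M] (f : ℕ) : Prop :=
  ∀ σ : Gal(M/ℚ), ∃ τ : L →ₐ[ℚ] M, (∃ k : ℕ, 1 ≤ k ∧ k ≤ f ∧ mv (σ ^ k) τ = τ) ∧
    ∀ E : IntermediateField ℚ L, E ≠ ⊤ → ∃ τ' : L →ₐ[ℚ] M, (∀ x ∈ E, τ' x = τ x) ∧
      ∀ k : ℕ, τ' ≠ mv (σ ^ k) τ

/-- the norm of the prime ideal given by an embedding with a short orbit -/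
theorem absNorm_ker_le {p : ℕ} [Fact p.Prime] (φ : 𝓞 M →+* AlgebraicClosure (ZMod p))
    (σ : Gal(M/ℚ)) (hσ : HasFrob p φ σ) (τ : L →ₐ[ℚ] M) {k : ℕ} (hk : 1 ≤ k)
    (h : mv (σ ^ k) τ = τ) : Ideal.absNorm (RingHom.ker (res φ τ)) ≤ p ^ k := by
  have hpp : p.Prime := Fact.out
  have hP0 := ker_ne_bot hpp φ τ
  have hfin : Finite (𝓞 L ⧸ RingHom.ker (res φ τ)) := Ideal.finiteQuotientOfFreeOfNeBot _ hP0
  have hft : Fintype (𝓞 L ⧸ RingHom.ker (res φ τ)) := Fintype.ofFinite _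
  have hpow : ∀ x : 𝓞 L, res φ τ x ^ p ^ k = res φ τ x := by
    intro x
    have h1 : res φ (mv (σ ^ k) τ) x = res φ τ x := by rw [h]
    rw [res_mv, frob_pow φ σ hσ, ← res_apply] at h1
    exact h1
  let f₁ : 𝓞 L ⧸ RingHom.ker (res φ τ) →+* AlgebraicClosure (ZMod p) := RingHom.kerLift (res φ τ)
  have hinj : Function.Injective f₁ := RingHom.kerLift_injective _
  have hpk : 1 < p ^ k := Nat.one_lt_pow (by omega) hpp.one_lt
  have hne : (Polynomial.X ^ (p ^ k) - Polynomial.X :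
      Polynomial (AlgebraicClosure (ZMod p))) ≠ 0 := FiniteField.X_pow_card_sub_X_ne_zero _ hpk
  have hsub : Finset.univ.image f₁ ⊆ (Polynomial.X ^ (p ^ k) - Polynomial.X :
      Polynomial (AlgebraicClosure (ZMod p))).roots.toFinset := by
    intro y hy
    obtain ⟨x, -, rfl⟩ := Finset.mem_image.mp hy
    obtain ⟨x, rfl⟩ := Ideal.Quotient.mk_surjective x
    rw [Multiset.mem_toFinset, Polynomial.mem_roots hne, Polynomial.IsRoot, Polynomial.eval_sub,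
      Polynomial.eval_pow, Polynomial.eval_X, sub_eq_zero]
    exact hpow x
  have h1 := Finset.card_le_card hsub
  rw [Finset.card_image_of_injective _ hinj, Finset.card_univ] at h1
  have h2 := Multiset.toFinset_card_le (Polynomial.X ^ (p ^ k) - Polynomial.X :
      Polynomial (AlgebraicClosure (ZMod p))).roots
  have h3 := Polynomial.card_roots' (Polynomial.X ^ (p ^ k) - Polynomial.X :
      Polynomial (AlgebraicClosure (ZMod p)))
  rw [FiniteField.X_pow_card_sub_X_natDegree_eq _ hpk] at h3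
  rw [Ideal.absNorm_apply, Submodule.cardQuot_apply, Nat.card_eq_fintype_card]
  omega

/-- the prime ideals of `L` that generate `L` -/
theorem exists_prime2 [IsGalois ℚ M] (hX : Fintype.card (L →ₐ[ℚ] M) = Module.finrank ℚ L)
    {f : ℕ} (hgood : SmallOrbits L M f) {p : ℕ} (hp : p.Prime) (hpL : ¬ p ∣ (discr L).natAbs) :
    ∃ P J : (Ideal (𝓞 L))⁰, (P : Ideal (𝓞 L)) * (J : Ideal (𝓞 L)) =
      Ideal.span {((p : ℕ) : 𝓞 L)} ∧ Ideal.absNorm (P : Ideal (𝓞 L)) ≤ p ^ f ∧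
      ∀ (z : 𝓞 L) (I : Ideal (𝓞 L)) (l : ℕ), 1 ≤ l →
      Nat.Coprime (Ideal.absNorm I) p → Ideal.span {z} = (P : Ideal (𝓞 L)) ^ l * I →
      ℚ⟮(z : L)⟯ = ⊤ := by
  have hpF : Fact p.Prime := ⟨hp⟩
  obtain ⟨φ⟩ := exists_hom M p
  obtain ⟨σ, hσ⟩ := exists_frob_all φ
  obtain ⟨τ, ⟨k, hk1, hkf, hk⟩, hτ⟩ := hgood σ
  have hP0 : RingHom.ker (res φ τ) ≠ ⊥ := ker_ne_bot hp φ τ
  have hdvd : RingHom.ker (res φ τ) ∣ Ideal.span {((p : ℕ) : 𝓞 L)} := by
    rw [Ideal.dvd_iff_le, Ideal.span_le, Set.singleton_subset_iff]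
    exact mem_ker_p φ τ
  obtain ⟨J, hJ⟩ := hdvd
  have hJ0 : J ≠ ⊥ := by
    rintro rfl
    rw [Ideal.mul_bot, Ideal.span_singleton_eq_bot] at hJ
    exact hp.ne_zero (by exact_mod_cast hJ)
  refine ⟨⟨RingHom.ker (res φ τ), mem_nonZeroDivisors_of_ne_zero hP0⟩,
    ⟨J, mem_nonZeroDivisors_of_ne_zero hJ0⟩, hJ.symm,
    (absNorm_ker_le φ σ hσ τ hk1 hk).trans (Nat.pow_le_pow_right hp.pos hkf), ?_⟩
  intro z I l hl hI hz
  by_contra hne
  obtain ⟨τ', hτ', hk'⟩ := hτ _ hne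
  obtain ⟨k, hk''⟩ := key_lemma hX hpL φ σ hσ τ τ' z I hl hI hz
    (hτ' _ (mem_adjoin_simple_self ℚ _))
  exact hk' k hk''

end

/-- the size condition -/
theorem size_cond3 {n l f : ℕ} (hn2 : 2 ≤ n) (hl : 1 ≤ l) (hf : 1 ≤ f) {D y : ℝ} (hD : 0 < D)
    (hy0 : 0 ≤ y) (hy : y ≤ D ^ (1 / (((2 * f * (n - 1) : ℕ) : ℝ) * l) : ℝ) / 300 ^ n) :
    (2 ^ n * ((150 : ℝ) ^ l) ^ n * (y ^ f * y ^ f) ^ l) ^ (n - 1) < D := by
  obtain ⟨m, rfl⟩ : ∃ m, n = m + 1 := ⟨n - 1, by omega⟩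
  have hm : 1 ≤ m := by omega
  simp only [Nat.add_sub_cancel] at hy ⊢
  set c : ℝ := 300 ^ (m + 1) with hc
  have hc1 : 1 < c := by
    rw [hc]; exact one_lt_pow₀ (by norm_num) (by omega)
  have hc0 : 0 < c := by linarith
  set θ : ℝ := 1 / (((2 * f * m : ℕ) : ℝ) * l) with hθ
  have hl' : (0 : ℝ) < l := by exact_mod_cast hl
  have hf' : (0 : ℝ) < f := by exact_mod_cast hf
  have hm' : (0 : ℝ) < m := by exact_mod_cast hm
  have h1 : 2 ^ (m + 1) * ((150 : ℝ) ^ l) ^ (m + 1) ≤ c ^ l := by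
    calc 2 ^ (m + 1) * ((150 : ℝ) ^ l) ^ (m + 1) ≤ ((2 : ℝ) ^ l) ^ (m + 1) * ((150 : ℝ) ^ l) ^ (m + 1) := by
          gcongr
          calc (2 : ℝ) = 2 ^ 1 := by norm_num
            _ ≤ 2 ^ l := pow_le_pow_right₀ (by norm_num) hl
      _ = c ^ l := by
          rw [hc, ← mul_pow, ← mul_pow, ← pow_mul, ← pow_mul, mul_comm l]
          norm_num
  have h2 : y ^ (2 * f * m * l) ≤ D / c ^ (2 * f * m * l) := by
    calc y ^ (2 * f * m * l) ≤ (D ^ θ / c) ^ (2 * f * m * l) := pow_le_pow_left₀ hy0 hy _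
      _ = D / c ^ (2 * f * m * l) := by
          rw [div_pow, ← Real.rpow_natCast (D ^ θ), ← Real.rpow_mul hD.le]
          congr 1
          have : θ * ((2 * f * m * l : ℕ) : ℝ) = 1 := by
            rw [hθ]; push_cast; field_simp
          rw [this, Real.rpow_one]
  calc (2 ^ (m + 1) * ((150 : ℝ) ^ l) ^ (m + 1) * (y ^ f * y ^ f) ^ l) ^ m
      ≤ (c ^ l * (y ^ f * y ^ f) ^ l) ^ m := by gcongr
    _ = c ^ (l * m) * y ^ (2 * f * m * l) := by
        have e1 : y ^ f * y ^ f = y ^ (2 * f) := by rw [← pow_add]; congr 1; ring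
        have e2 : ((y ^ f * y ^ f) ^ l) ^ m = y ^ (2 * f * m * l) := by
          rw [e1, ← pow_mul, ← pow_mul]
          congr 1
          ring
        rw [mul_pow, ← pow_mul c l m, e2]
    _ ≤ c ^ (l * m) * (D / c ^ (2 * f * m * l)) := by gcongr
    _ < D := by
        have h3 : c ^ (l * m) < c ^ (2 * f * m * l) := by
          refine pow_lt_pow_right₀ hc1 ?_
          have : 0 < l * m := Nat.mul_pos hl hm
          calc l * m < 2 * (l * m) := by omega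
            _ ≤ f * (2 * (l * m)) := Nat.le_mul_of_pos_left _ hf
            _ = 2 * f * m * l := by ring
        have h4 : 0 < c ^ (2 * f * m * l) := pow_pos hc0 _
        rw [← mul_div_assoc, div_lt_iff₀ h4, mul_comm]
        exact mul_lt_mul_of_pos_left h3 hD

/-- the inequality for sets of primes -/
theorem pack_small (n : ℕ) (hn2 : 2 ≤ n) (f : ℕ) (hf : 1 ≤ f) (δ : ℝ) (hδ : 0 < δ) :
    ∃ C : ℝ, 0 < C ∧ ∀ l : ℕ, 1 ≤ l →
    ∀ (L : Type) [Field L] [NumberField L], Module.finrank ℚ L = n →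
    (∃ (M : Type) (_ : Field M) (_ : NumberField M), IsNormalClosure ℚ L M ∧
      SmallOrbits L M f) →
    ∀ (S : Finset ℕ) (X : ℕ), (∀ p ∈ S, p.Prime ∧ True ∧ ¬ p ∣ (discr L).natAbs) →
    (∀ p ∈ S, p ≤ X) → (X : ℝ) ≤ ((discr L).natAbs : ℝ) ^
      (1 / (((2 * f * (n - 1) : ℕ) : ℝ) * l) : ℝ) / 300 ^ n →
    (Nat.card {c : ClassGroup (𝓞 L) // c ^ l = 1} : ℝ) * (S.card : ℝ) ≤
      C * ((discr L).natAbs : ℝ) ^ (1 / 2 + δ) := by
  obtain ⟨C, hC0, hC⟩ := Pool.Agent.Y159.PT.W_bound n hn2 δ hδ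
  refine ⟨C, hC0, ?_⟩
  intro l hl L _ _ hn hM S X hS hSX hX
  obtain ⟨M, _, _, hM, hgood⟩ := hM
  have hgal : IsGalois ℚ M := isGalois_nc L M
  have hXc : Fintype.card (L →ₐ[ℚ] M) = Module.finrank ℚ L := card_hom L M
  obtain ⟨N, hXN, hW⟩ := hC L hn
  refine le_trans ?_ hW
  have hex : ∀ p : {p // p ∈ S}, ∃ P J : (Ideal (𝓞 L))⁰, (P : Ideal (𝓞 L)) * (J : Ideal (𝓞 L)) =
      Ideal.span {((p.1 : ℕ) : 𝓞 L)} ∧ Ideal.absNorm (P : Ideal (𝓞 L)) ≤ p.1 ^ f ∧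
      ∀ (z : 𝓞 L) (I : Ideal (𝓞 L)) (l : ℕ), 1 ≤ l →
      Nat.Coprime (Ideal.absNorm I) p.1 → Ideal.span {z} = (P : Ideal (𝓞 L)) ^ l * I →
      ℚ⟮(z : L)⟯ = ⊤ := fun p =>
    exists_prime2 hXc hgood (hS p.1 p.2).1 (hS p.1 p.2).2.2
  choose P J hPJ hPf hgen using hex
  have key := ev_norm hn hl N hXN {p // p ∈ S} (fun p => p.1) P J
    (fun p => ⟨(hS p.1 p.2).1.pos, hPJ p⟩) (fun _ _ => True) (fun _ _ => Or.inl trivial) (by
      intro p q hne _ z hz0 hz hw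
      have hpp := (hS p.1 p.2).1
      have hqp := (hS q.1 q.2).1
      -- coprimality
      have hnorm : Ideal.absNorm (P p : Ideal (𝓞 L)) * Ideal.absNorm (J p : Ideal (𝓞 L)) =
          p.1 ^ n := by
        rw [← map_mul, hPJ, Ideal.absNorm_span_natCast, RingOfIntegers.rank, hn]
      have hcop : Nat.Coprime (Ideal.absNorm ((J p : Ideal (𝓞 L)) ^ l)) q.1 := by
        rw [map_pow]
        refine Nat.Coprime.pow_left _ ?_
        have h1 : Ideal.absNorm (J p : Ideal (𝓞 L)) ∣ p.1 ^ n := Dvd.intro_left _ hnorm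
        refine Nat.Coprime.coprime_dvd_left h1 (Nat.Coprime.pow_left _ ?_)
        exact (Nat.coprime_primes hpp hqp).mpr (fun h => hne (Subtype.ext h))
      have htop := hgen q z ((J p : Ideal (𝓞 L)) ^ l) l hl hcop hz
      have hdisc := disc_le_gen hn hn2 z htop (P p : Ideal (𝓞 L)) (J p : Ideal (𝓞 L))
        (P q : Ideal (𝓞 L)) hpp.pos (hPJ p) hz hw
      rw [abs_discr_eq] at hdisc
      have hD2 : 2 < (discr L).natAbs := two_lt_D hn2 L hn
      have hDr : (2 : ℝ) < (discr L).natAbs := by exact_mod_cast hD2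
      have hlt := size_cond3 hn2 hl hf (by linarith) (Nat.cast_nonneg X) hX
      refine absurd (hdisc.trans ?_) (not_le.mpr hlt)
      have h1 : ∀ r : {p // p ∈ S}, (Ideal.absNorm (P r : Ideal (𝓞 L)) : ℝ) ≤ (X : ℝ) ^ f := by
        intro r
        have h2 : Ideal.absNorm (P r : Ideal (𝓞 L)) ≤ X ^ f :=
          (hPf r).trans (Nat.pow_le_pow_left (hSX r.1 r.2) f)
        exact_mod_cast h2
      have h2 : ((Ideal.absNorm (P p : Ideal (𝓞 L)) * Ideal.absNorm (P q : Ideal (𝓞 L)) : ℕ) : ℝ) ≤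
          (X : ℝ) ^ f * (X : ℝ) ^ f := by
        push_cast
        exact mul_le_mul (h1 p) (h1 q) (Nat.cast_nonneg _) (by positivity)
      gcongr)
  rw [Fintype.card_coe] at key
  rw [mul_comm]
  exact key

/-- **The bound for the torsion.** -/
theorem small_bound (n : ℕ) (hn2 : 2 ≤ n) (f : ℕ) (hf : 1 ≤ f) (ε : ℝ) (hε : 0 < ε) :
    ∃ C : ℝ, 0 < C ∧ ∀ l : ℕ, 1 ≤ l →
    ∀ (L : Type) [Field L] [NumberField L], Module.finrank ℚ L = n →
    (∃ (M : Type) (_ : Field M) (_ : NumberField M), IsNormalClosure ℚ L M ∧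
      SmallOrbits L M f) →
    (Nat.card {c : ClassGroup (𝓞 L) // c ^ l = 1} : ℝ) ≤
      C * |(discr L : ℝ)| ^ (1 / 2 - 1 / (((2 * f * (n - 1) : ℕ) : ℝ) * l) + ε : ℝ) := by
  have hκ : (2 : ℝ) ≤ ((2 * f * (n - 1) : ℕ) : ℝ) := by
    have : 2 ≤ 2 * f * (n - 1) := by
      calc 2 = 2 * 1 * 1 := rfl
        _ ≤ 2 * f * (n - 1) := Nat.mul_le_mul (Nat.mul_le_mul_left 2 hf) (by omega)
    exact_mod_cast this
  have hc : (1 : ℝ) ≤ 300 ^ n := one_le_pow₀ (by norm_num)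
  exact engine_abs n hn2 ε hε _ hκ _ hc (fun _ => True) (fun η hη => by convert all_dense η hη)
    (fun (L : Type) [Field L] [NumberField L] => ∃ (M : Type) (_ : Field M) (_ : NumberField M),
      IsNormalClosure ℚ L M ∧ SmallOrbits L M f)
    (fun δ hδ => pack_small n hn2 f hf δ hδ)

end Pool.Agent.V7H55.GG
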