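import Pool.Agent.V7H55.LT.Quad

/-! Homomorphisms to an algebraic closure of `𝔽_p` and prime ideals. -/

set_option autoImplicit false

namespace Pool.Agent.V7H55.GG

open NumberField Finset Pool.Agent.W401.Cheb
open scoped Classical

/-- two homomorphisms with the same kernel of finite index differ by a power of the Frobenius -/
theorem frob_of_ker {R : Type} [CommRing R] {p : ℕ} [Fact p.Prime]
    (ψ₁ ψ₂ : R →+* AlgebraicClosure (ZMod p)) (hfin : Finite (R ⧸ RingHom.ker ψ₁))
    (h : RingHom.ker ψ₁ = RingHom.ker ψ₂) : ∃ k : ℕ, ∀ x, ψ₂ x = ψ₁ x ^ p ^ k := by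
  set F := R ⧸ RingHom.ker ψ₁ with hF
  let f₁ : F →+* AlgebraicClosure (ZMod p) := Ideal.Quotient.lift (RingHom.ker ψ₁) ψ₁ fun a ha => ha
  let f₂ : F →+* AlgebraicClosure (ZMod p) := Ideal.Quotient.lift (RingHom.ker ψ₁) ψ₂
    fun a ha => by rw [h] at ha; exact ha
  have hf₁ : ∀ x : R, f₁ (Ideal.Quotient.mk _ x) = ψ₁ x := fun x => rfl
  have hf₂ : ∀ x : R, f₂ (Ideal.Quotient.mk _ x) = ψ₂ x := fun x => rfl
  have : (RingHom.ker ψ₁).IsPrime := RingHom.ker_isPrime ψ₁
  have hdom : IsDomain F := Ideal.Quotient.isDomain _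
  have hmax : (RingHom.ker ψ₁).IsMaximal :=
    Ideal.Quotient.maximal_of_isField _ (Finite.isField_of_domain F)
  let : Field F := Ideal.Quotient.field _
  have hft : Fintype F := Fintype.ofFinite F
  have hchar : CharP F p := by
    have hinj : Function.Injective f₁ := f₁.injective
    exact RingHom.charP f₁ hinj p
  let alg : Algebra (ZMod p) F := ZMod.algebra F p
  set q := Fintype.card F with hq
  have hpow : ∀ a : F, a ^ q = a := fun a => FiniteField.pow_card a
  have hq1 : 1 < q := Fintype.one_lt_card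
  -- the image
  have himg : ∀ a : F, ∃ b : F, f₁ b = f₂ a := by
    intro a
    by_contra hcon
    push Not at hcon
    let T : Finset (AlgebraicClosure (ZMod p)) := insert (f₂ a) (Finset.univ.image f₁)
    have hT : T.card = q + 1 := by
      rw [Finset.card_insert_of_notMem, Finset.card_image_of_injective _ f₁.injective,
        Finset.card_univ]
      simp only [Finset.mem_image, Finset.mem_univ, true_and, not_exists]
      exact hcon
    have hroot : ∀ x ∈ T, (Polynomial.X ^ q - Polynomial.X :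
        Polynomial (AlgebraicClosure (ZMod p))).IsRoot x := by
      intro x hx
      rw [Polynomial.IsRoot, Polynomial.eval_sub, Polynomial.eval_pow, Polynomial.eval_X,
        sub_eq_zero]
      rcases Finset.mem_insert.mp hx with rfl | hx
      · rw [← map_pow, hpow]
      · obtain ⟨y, -, rfl⟩ := Finset.mem_image.mp hx
        rw [← map_pow, hpow]
    have hne : (Polynomial.X ^ q - Polynomial.X :
        Polynomial (AlgebraicClosure (ZMod p))) ≠ 0 :=
      FiniteField.X_pow_card_sub_X_ne_zero _ hq1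
    have hsub : T ⊆ (Polynomial.X ^ q - Polynomial.X :
        Polynomial (AlgebraicClosure (ZMod p))).roots.toFinset := by
      intro x hx
      rw [Multiset.mem_toFinset, Polynomial.mem_roots hne]
      exact hroot x hx
    have h1 := Finset.card_le_card hsub
    have h2 := Multiset.toFinset_card_le (Polynomial.X ^ q - Polynomial.X :
        Polynomial (AlgebraicClosure (ZMod p))).roots
    have h3 := Polynomial.card_roots' (Polynomial.X ^ q - Polynomial.X :
        Polynomial (AlgebraicClosure (ZMod p)))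
    rw [FiniteField.X_pow_card_sub_X_natDegree_eq _ hq1] at h3
    omega
  choose g hg using himg
  let gh : F →+* F :=
    { toFun := g
      map_one' := f₁.injective (by rw [hg, map_one, map_one])
      map_mul' := fun a b => f₁.injective (by rw [hg, map_mul, map_mul, hg, hg])
      map_zero' := f₁.injective (by rw [hg, map_zero, map_zero])
      map_add' := fun a b => f₁.injective (by rw [hg, map_add, map_add, hg, hg]) }
  let ga : F →ₐ[ZMod p] F :=
    { gh with
      commutes' := fun r => by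
        have : gh.comp (algebraMap (ZMod p) F) = algebraMap (ZMod p) F := Subsingleton.elim _ _
        exact congrArg (fun f : ZMod p →+* F => f r) this }
  obtain ⟨k, hk⟩ := (FiniteField.bijective_frobeniusAlgHom_pow (ZMod p) F).2 ga
  refine ⟨k, fun x => ?_⟩
  rw [← hf₂, ← hg, ← hf₁, ← map_pow]
  congr 1
  have h1 : ga (Ideal.Quotient.mk _ x) = (FiniteField.frobeniusAlgHom (ZMod p) F ^ (k : ℕ))
    (Ideal.Quotient.mk _ x) := by rw [← hk]
  change ga (Ideal.Quotient.mk _ x) = _
  rw [h1, AlgHom.coe_pow, FiniteField.coe_frobeniusAlgHom, pow_iterate, ZMod.card]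

section
variable {L M : Type} [Field L] [NumberField L] [Field M] [NumberField M]

/-- the homomorphism of `𝓞 L` given by an embedding and a homomorphism of `𝓞 M` -/
noncomputable def res {k : Type} [Field k] (φ : 𝓞 M →+* k) (τ : L →ₐ[ℚ] M) : 𝓞 L →+* k :=
  φ.comp (RingOfIntegers.mapRingHom (τ : L →+* M))

theorem res_apply {k : Type} [Field k] (φ : 𝓞 M →+* k) (τ : L →ₐ[ℚ] M) (x : 𝓞 L) :
    res φ τ x = φ (RingOfIntegers.mapRingHom (τ : L →+* M) x) := rfl

/-- **at the primes that do not divide the discriminant, different embeddings give different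
homomorphisms** -/
theorem res_injective (hX : Fintype.card (L →ₐ[ℚ] M) = Module.finrank ℚ L) {p : ℕ}
    {k : Type} [Field k] [CharP k p] (φ : 𝓞 M →+* k) (hp : ¬ p ∣ (discr L).natAbs) :
    Function.Injective (fun τ : L →ₐ[ℚ] M => res φ τ) := by
  intro τ₁ τ₂ h12
  by_contra hne
  simp only at h12
  -- the matrix
  have hc : Fintype.card (Module.Free.ChooseBasisIndex ℤ (𝓞 L)) = Fintype.card (L →ₐ[ℚ] M) := by
    rw [hX, ← Module.finrank_eq_card_basis (RingOfIntegers.basis L), RingOfIntegers.rank]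
  let e : Module.Free.ChooseBasisIndex ℤ (𝓞 L) ≃ (L →ₐ[ℚ] M) := Fintype.equivOfCardEq hc
  let A : Matrix (Module.Free.ChooseBasisIndex ℤ (𝓞 L)) (Module.Free.ChooseBasisIndex ℤ (𝓞 L))
    (𝓞 M) := fun i j => RingOfIntegers.mapRingHom (e j : L →+* M) (RingOfIntegers.basis L i)
  let ι : M →ₐ[ℚ] AlgebraicClosure M := (algebraMap M (AlgebraicClosure M)).toRatAlgHom
  have hinj : Function.Injective (fun ρ : L →ₐ[ℚ] M => ι.comp ρ) := by
    intro ρ ρ' h
    ext x
    apply (ι : M →+* AlgebraicClosure M).injective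
    exact congrArg (fun f : L →ₐ[ℚ] AlgebraicClosure M => f x) h
  have hbij : Function.Bijective (fun ρ : L →ₐ[ℚ] M => ι.comp ρ) := by
    rw [Fintype.bijective_iff_injective_and_card]
    refine ⟨hinj, ?_⟩
    rw [hX, AlgHom.card]
  let e' : Module.Free.ChooseBasisIndex ℤ (𝓞 L) ≃ (L →ₐ[ℚ] AlgebraicClosure M) :=
    e.trans (Equiv.ofBijective _ hbij)
  let j : 𝓞 M →+* AlgebraicClosure M := (ι : M →+* AlgebraicClosure M).comp
    (algebraMap (𝓞 M) M)
  have hj : Function.Injective j := (ι : M →+* AlgebraicClosure M).injective.comp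
    RingOfIntegers.coe_injective
  have hdet : A.det ^ 2 = ((discr L : ℤ) : 𝓞 M) := by
    apply hj
    have h1 := Algebra.discr_eq_det_embeddingsMatrixReindex_pow_two ℚ (AlgebraicClosure M)
      (integralBasis L) e'
    have h2 : Algebra.embeddingsMatrixReindex ℚ (AlgebraicClosure M) (integralBasis L) e' =
        j.mapMatrix A := by
      ext i i'
      rw [RingHom.mapMatrix_apply, Matrix.map_apply]
      change e' i' (integralBasis L i) = ι (RingOfIntegers.mapRingHom (e i' : L →+* M)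
        (RingOfIntegers.basis L i) : 𝓞 M)
      rw [integralBasis_apply, RingOfIntegers.mapRingHom_apply]
      rfl
    rw [h2, ← RingHom.map_det, ← coe_discr] at h1
    rw [map_pow, ← h1, map_intCast]
    simp
  have hφ := congrArg φ hdet
  rw [map_pow, map_intCast, RingHom.map_det] at hφ
  have h0 : (φ.mapMatrix A).det = 0 := by
    refine Matrix.det_zero_of_column_eq (i := e.symm τ₁) (j := e.symm τ₂)
      (fun h => hne (e.symm.injective h)) fun i => ?_
    rw [RingHom.mapMatrix_apply, Matrix.map_apply, Matrix.map_apply]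
    simp only [A, Equiv.apply_symm_apply]
    exact congrArg (fun f : 𝓞 L →+* k => f (RingOfIntegers.basis L i)) h12
  rw [h0, zero_pow two_ne_zero] at hφ
  have h3 := (CharP.intCast_eq_zero_iff k p (discr L)).mp hφ.symm
  exact hp (Int.natCast_dvd.mp h3)

theorem frob_pow {p : ℕ} [Fact p.Prime] (φ : 𝓞 M →+* AlgebraicClosure (ZMod p))
    (σ : Gal(M/ℚ)) (hσ : HasFrob p φ σ) (k : ℕ) (y : 𝓞 M) : φ ((σ ^ k) • y) = φ y ^ p ^ k := by
  induction k with
  | zero => simp
  | succ k ih =>
    have h1 : (σ ^ (k + 1)) • y = σ • ((σ ^ k) • y) := by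
      rw [pow_succ', mul_smul]
    rw [h1]
    have h2 := hσ ((σ ^ k) • y)
    rw [h2, ih, ← pow_mul, pow_succ]

/-- `σ ∘ τ` -/
noncomputable def mv (σ : Gal(M/ℚ)) (τ : L →ₐ[ℚ] M) : L →ₐ[ℚ] M := (σ : M →ₐ[ℚ] M).comp τ

theorem mv_apply (σ : Gal(M/ℚ)) (τ : L →ₐ[ℚ] M) (x : L) : mv σ τ x = σ (τ x) := rfl

theorem res_mv {k : Type} [Field k] (φ : 𝓞 M →+* k) (σ : Gal(M/ℚ)) (τ : L →ₐ[ℚ] M) (x : 𝓞 L) :
    res φ (mv σ τ) x = φ (σ • RingOfIntegers.mapRingHom (τ : L →+* M) x) := by
  rw [res_apply]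
  congr 1

theorem ker_isPrime {k : Type} [Field k] (φ : 𝓞 M →+* k) (τ : L →ₐ[ℚ] M) :
    (RingHom.ker (res φ τ)).IsPrime := RingHom.ker_isPrime _

theorem mem_ker_p {p : ℕ} {k : Type} [Field k] [CharP k p] (φ : 𝓞 M →+* k) (τ : L →ₐ[ℚ] M) :
    ((p : ℕ) : 𝓞 L) ∈ RingHom.ker (res φ τ) := by
  rw [RingHom.mem_ker, map_natCast, CharP.cast_eq_zero]

theorem ker_ne_bot {p : ℕ} (hp : p.Prime) {k : Type} [Field k] [CharP k p] (φ : 𝓞 M →+* k)
    (τ : L →ₐ[ℚ] M) : RingHom.ker (res φ τ) ≠ ⊥ := by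
  intro h
  have h1 := mem_ker_p (p := p) φ τ
  rw [h, Ideal.mem_bot] at h1
  exact hp.ne_zero (by exact_mod_cast h1)

/-- **The key lemma.**  If a prime ideal given by `τ` is the only prime ideal above `p` that divides
`z`, then the embeddings that agree with `τ` at `z` are in the orbit of `τ` under the Frobenius
element. -/
theorem key_lemma (hX : Fintype.card (L →ₐ[ℚ] M) = Module.finrank ℚ L) {p : ℕ} [hpF : Fact p.Prime]
    (hp : ¬ p ∣ (discr L).natAbs) (φ : 𝓞 M →+* AlgebraicClosure (ZMod p)) (σ : Gal(M/ℚ))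
    (hσ : HasFrob p φ σ) (τ τ' : L →ₐ[ℚ] M) (z : 𝓞 L) (I : Ideal (𝓞 L)) {l : ℕ} (hl : 1 ≤ l)
    (hI : Nat.Coprime (Ideal.absNorm I) p)
    (hz : Ideal.span {z} = RingHom.ker (res φ τ) ^ l * I) (hτ : τ' (z : L) = τ (z : L)) :
    ∃ k : ℕ, τ' = mv (σ ^ k) τ := by
  have hpp : p.Prime := hpF.out
  set P := RingHom.ker (res φ τ) with hP
  set P' := RingHom.ker (res φ τ') with hP'
  have hPp : P.IsPrime := ker_isPrime φ τ
  have hPp' : P'.IsPrime := ker_isPrime φ τ'
  have hP0 : P ≠ ⊥ := ker_ne_bot hpp φ τ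
  have hP0' : P' ≠ ⊥ := ker_ne_bot hpp φ τ'
  have hPm : P.IsMaximal := hPp.isMaximal hP0
  have hPm' : P'.IsMaximal := hPp'.isMaximal hP0'
  have hzP : z ∈ P := by
    have h1 : Ideal.span {z} ≤ P := by
      rw [hz]
      exact Ideal.mul_le_left.trans (Ideal.pow_le_self (n := l) (by omega))
    exact h1 (Ideal.mem_span_singleton_self z)
  have hzP' : z ∈ P' := by
    rw [hP', RingHom.mem_ker, res_apply]
    have h1 : RingOfIntegers.mapRingHom (τ' : L →+* M) z =
        RingOfIntegers.mapRingHom (τ : L →+* M) z := by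
      apply RingOfIntegers.ext
      rw [RingOfIntegers.mapRingHom_apply, RingOfIntegers.mapRingHom_apply]
      exact hτ
    rw [h1]
    exact hzP
  have hle : P ^ l * I ≤ P' := by
    rw [← hz, Ideal.span_le, Set.singleton_subset_iff]
    exact hzP'
  have hPP' : P = P' := by
    rcases hPp'.mul_le.mp hle with h1 | h1
    · exact hPm.eq_of_le hPm'.ne_top (hPp'.le_of_pow_le h1)
    · exfalso
      have h4 : Ideal.absNorm P' ∣ Ideal.absNorm I := Ideal.absNorm_dvd_absNorm_of_le h1
      have h5 : Ideal.absNorm P' ∣ p ^ Module.finrank ℤ (𝓞 L) := by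
        rw [← Ideal.absNorm_span_natCast]
        refine Ideal.absNorm_dvd_absNorm_of_le ?_
        rw [Ideal.span_le, Set.singleton_subset_iff]
        exact mem_ker_p φ τ'
      have h6 : Nat.Coprime (Ideal.absNorm I) (p ^ Module.finrank ℤ (𝓞 L)) :=
        Nat.Coprime.pow_right _ hI
      have h7 : Ideal.absNorm P' = 1 := Nat.eq_one_of_dvd_coprimes h6 h4 h5
      exact hPm'.ne_top (Ideal.absNorm_eq_one_iff.mp h7)
  have hfin : Finite (𝓞 L ⧸ P) := Ideal.finiteQuotientOfFreeOfNeBot P hP0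
  obtain ⟨k, hk⟩ := frob_of_ker (res φ τ) (res φ τ') hfin hPP'
  refine ⟨k, ?_⟩
  apply res_injective hX φ hp
  ext x
  change res φ τ' x = res φ (mv (σ ^ k) τ) x
  rw [hk, res_mv, frob_pow φ σ hσ, res_apply]

end

end Pool.Agent.V7H55.GG
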